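import Pool.Agent.Helper2.FR.GDefs
import Pool.Agent.Helper2.AV.TDefs
import Pool.Agent.Helper21.TR.Bad1

/-!
Semisimple Mumford-Tate pairs with Frobenius elements, abstract form: definitions.
-/

open Module

namespace FR

open MTP UN AV

variable {K : Type*} [Field K] {V : Type*} [AddCommGroup V] [Module K V] [FiniteDimensional K V]

/-- The exceptional quadruples (dimension, signature, rank, number of eigenvalues). -/
def ExcF (D s r k : ℕ) : Prop :=
  (∃ n j, 5 ≤ n ∧ 2 ≤ j ∧ 2 * j ≤ n ∧ D = n.choose j ∧ s = (n - 1).choose (j - 1) ∧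
    r = (n - 2).choose (j - 1) ∧ (k = 1 ∨ k = 2)) ∨
  (∃ n, 4 ≤ n ∧ D = 2 ^ (n - 1) ∧ s = 2 ^ (n - 2) ∧
    ((r = 2 ^ (n - 3) ∧ (k = 1 ∨ k = 2)) ∨ (r = 2 ^ (n - 2) ∧ k = 0)))

/-- The number of the eigenvalues of `h` on the kernel of `N` modulo the image of `N`. -/
noncomputable def nev (N h : Module.End K V) : ℕ := {q : K | TR.ml N h q ≠ 0}.ncard

/-- The data of a bad place in abstract form: the nilpotent operator `N` and the logarithm `h`
of Frobenius. -/
structure Plc (G : Set (Module.End K V)) (T : Set (Module.End K V ≃+* Module.End K V))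
    (p0 N h : Module.End K V) : Prop where
  mem : 1 + N ∈ G
  hA : h ∈ AA G T p0
  p : ∃ p ∈ SC G T p0, p * N = N ∧ N * p = 0 ∧ p * h = h * p
  σ : ∃ σ : K, h * N = σ • N
  τ : ∃ τ : K, N * h = τ • N
  diag : ⨆ q : ℚ, h.eigenspace (q : K) = ⊤
  norm : ∀ x ∈ ML G T p0, h * x - x * h ∈ ML G T p0

/-- Orthogonal blocks of dimension eight. -/
def TyE (ω : LinearMap.BilinForm K V) (A : Subalgebra K (Module.End K V)) (ε : Module.End K V)
    (W : Submodule K V) : Prop :=
  SD ω ε ∧ finrank K W = 8 ∧ ∃ b : LinearMap.BilinForm K W, Fm ω A ε W b ∧ ∀ v w, b v w = b w v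

section SH
open MTPairs

/-- An exceptional example: all the irreducible subrepresentations have the same quadruple. -/
def HasExF (K : Type*) [Field K] (D s r k : ℕ) : Prop :=
  ∃ (m : Type) (_ : Fintype m) (_ : DecidableEq m) (J : Matrix m m K)
    (G : Subgroup (Matrix.GeneralLinearGroup m K)) (π : Matrix m m K),
    IsStrongMTPair ⊥ J G π ∧ IsReductiveRep G ∧
    (∀ W, IsIrrSub G W → finrank K W = D ∧ HasSig ⊥ G π W s ∧ BadAt ⊥ G π W r ∧
      HasFrob ⊥ G π W r k) ∧ ¬ ContainsDer J G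

end SH

end FR
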