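import Pool.Agent.Helper2.FR.Defs
import Pool.Agent.Helper21.TR.Bad2

/-!
The number of the eigenvalues of an operator on the kernel modulo the image of a nilpotent
operator.
-/

open Module

namespace FR

open MTP UN AV MTP.MF Pool.Agent.Helper54.MT

variable {K : Type*} [Field K] {V : Type*} [AddCommGroup V]
  [Module K V] {N h : Module.End K V} {σ τ : K}

/-- FN3: shifts. -/
theorem nev_sub (N h : Module.End K V) (c : K) : nev N (h - c • 1) = nev N h := by
  have he : ∀ q : K, (h - c • (1 : Module.End K V)).eigenspace q = h.eigenspace (q + c) := by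
    intro q
    ext v
    rw [Module.End.mem_eigenspace_iff, Module.End.mem_eigenspace_iff, LinearMap.sub_apply,
      LinearMap.smul_apply, Module.End.one_apply, sub_eq_iff_eq_add, ← add_smul]
  have hm : ∀ q : K, TR.ml N (h - c • (1 : Module.End K V)) q = TR.ml N h (q + c) := by
    intro q
    unfold TR.ml
    rw [he]
  unfold nev
  have : {q : K | TR.ml N h q ≠ 0} =
      (fun q => q + c) '' {q : K | TR.ml N (h - c • (1 : Module.End K V)) q ≠ 0} := by
    ext q
    constructor
    · intro hq
      refine ⟨q - c, ?_, sub_add_cancel q c⟩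
      change TR.ml N (h - c • (1 : Module.End K V)) (q - c) ≠ 0
      rw [hm, sub_add_cancel]
      exact hq
    · rintro ⟨p, hp, rfl⟩
      change TR.ml N h (p + c) ≠ 0
      rw [← hm]
      exact hp
  rw [this, Set.ncard_image_of_injective _ (add_left_injective c)]

variable [FiniteDimensional K V]

/-- FN1 -/
theorem nev_le_two {a b : K}
    (hab : ∀ v, N v = 0 → ∃ w, h (h v) - (a + b) • h v + (a * b) • v = N w) :
    nev N h ≤ 2 := by
  have key : {q : K | TR.ml N h q ≠ 0} ⊆ {a, b} := by
    intro q hq
    by_contra hne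
    apply hq
    have hne' : q ≠ a ∧ q ≠ b := by
      constructor <;> rintro rfl <;> apply hne <;> simp
    have h1 : (q - a) * (q - b) ≠ 0 :=
      mul_ne_zero (sub_ne_zero.mpr hne'.1) (sub_ne_zero.mpr hne'.2)
    have h2 : LinearMap.ker N ⊓ h.eigenspace q ≤ LinearMap.range N ⊓ h.eigenspace q := by
      rintro v ⟨hv1, hv2⟩
      refine ⟨?_, hv2⟩
      obtain ⟨w, hw⟩ := hab v hv1
      have hv3 := Module.End.mem_eigenspace_iff.mp hv2
      rw [hv3, map_smul, hv3, smul_smul, smul_smul, ← sub_smul, ← add_smul] at hw
      have e : q * q - (a + b) * q + a * b = (q - a) * (q - b) := by ring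
      rw [e] at hw
      refine ⟨((q - a) * (q - b))⁻¹ • w, ?_⟩
      rw [map_smul, ← hw, smul_smul, inv_mul_cancel₀ h1, one_smul]
    have := Submodule.finrank_mono h2
    unfold TR.ml
    omega
  calc nev N h ≤ ({a, b} : Set K).ncard := Set.ncard_le_ncard key (Set.toFinite _)
    _ ≤ ({b} : Set K).ncard + 1 := Set.ncard_insert_le _ _
    _ = 2 := by rw [Set.ncard_singleton]

variable [CharZero K]

/-- FN2 -/
theorem nev_facts (hNN : N * N = 0) (hdiag : ⨆ q : ℚ, h.eigenspace (q : K) = ⊤)
    (hσ : h * N = σ • N) (hτ : N * h = τ • N) :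
    (nev N h = 0 ↔ 2 * rk N = finrank K V) ∧ nev N h + 2 * rk N ≤ finrank K V := by
  classical
  have hrl : LinearMap.range N ≤ h.eigenspace σ := by
    rintro _ ⟨u, rfl⟩
    rw [Module.End.mem_eigenspace_iff]
    exact LinearMap.congr_fun hσ u
  have hrp : ∀ a : K, finrank K ↥(LinearMap.range N ⊓ h.eigenspace a) =
      if a = σ then rk N else 0 := by
    intro a
    split_ifs with ha
    · rw [ha, inf_eq_left.mpr hrl]; rfl
    · have : LinearMap.range N ⊓ h.eigenspace a = ⊥ := by
        rw [eq_bot_iff]
        rintro v ⟨h1, h2⟩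
        have h3 := Module.End.mem_eigenspace_iff.mp (hrl h1)
        have h4 := Module.End.mem_eigenspace_iff.mp h2
        have h5 : (a - σ) • v = 0 := by rw [sub_smul, ← h3, ← h4, sub_self]
        exact (Submodule.mem_bot K).mpr ((smul_eq_zero.mp h5).resolve_left (sub_ne_zero.mpr ha))
      rw [this, finrank_bot]
  have hlk : ∀ a : K, a ≠ τ → h.eigenspace a ≤ LinearMap.ker N := by
    intro a ha v hv
    have h1 := Module.End.mem_eigenspace_iff.mp hv
    have h2 : N (h v) = τ • N v := LinearMap.congr_fun hτ v
    rw [h1, map_smul] at h2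
    have h3 : (a - τ) • N v = 0 := by rw [sub_smul, h2, sub_self]
    exact (smul_eq_zero.mp h3).resolve_left (sub_ne_zero.mpr ha)
  have hkp : ∀ a : K, finrank K ↥(LinearMap.ker N ⊓ h.eigenspace a) +
      (if a = τ then rk N else 0) = finrank K (h.eigenspace a) := by
    intro a
    split_ifs with ha
    · have h1 := TR.finrank_inf_ker N (h.eigenspace a)
      have h2 : (h.eigenspace a).map N = LinearMap.range N := by
        apply le_antisymm (LinearMap.map_le_range)
        rw [← Submodule.map_top, ← hdiag, Submodule.map_iSup]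
        apply iSup_le
        intro q
        by_cases hq : (q : K) = τ
        · rw [hq, ha]
        · rw [Submodule.map_le_iff_le_comap]
          intro v hv
          rw [Submodule.mem_comap]
          have := hlk _ hq hv
          rw [LinearMap.mem_ker] at this
          rw [this]
          exact Submodule.zero_mem _
      rw [h2] at h1
      exact h1
    · rw [inf_eq_right.mpr (hlk a ha), add_zero]
  have hml : ∀ a : K, TR.ml N h a + (if a = σ then rk N else 0) + (if a = τ then rk N else 0) =
      finrank K (h.eigenspace a) := by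
    intro a
    have h1 := hkp a
    have h2 := hrp a
    have h3 : finrank K ↥(LinearMap.range N ⊓ h.eigenspace a) ≤
        finrank K ↥(LinearMap.ker N ⊓ h.eigenspace a) := by
      apply Submodule.finrank_mono
      apply inf_le_inf_right
      rintro _ ⟨u, rfl⟩
      rw [LinearMap.mem_ker, ← Module.End.mul_apply, hNN, LinearMap.zero_apply]
    unfold TR.ml
    omega
  obtain ⟨Λ, hΛ⟩ := exists_finset h
  set Q : Finset K := Λ ∪ {σ, τ} with hQ
  have htop : ⨆ μ, h.eigenspace μ = ⊤ := by
    rw [eq_top_iff, ← hdiag]
    exact iSup_le (fun q => le_iSup (fun μ : K => h.eigenspace μ) (q : K))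
  have hdim : finrank K V = ∑ a ∈ Q, finrank K (h.eigenspace a) := by
    have h1 := trace_aeval htop Q
      (fun μ hμ => by
        rw [hQ, Finset.mem_union]
        exact Or.inl ((hΛ μ).mp hμ)) (1 : Polynomial K)
    rw [map_one, LinearMap.trace_one] at h1
    simp only [Polynomial.eval_one, one_mul] at h1
    exact_mod_cast h1
  have hσQ : σ ∈ Q := by simp [hQ]
  have hτQ : τ ∈ Q := by simp [hQ]
  have hsum : ∑ a ∈ Q, TR.ml N h a + 2 * rk N = finrank K V := by
    rw [hdim, ← Finset.sum_congr rfl (fun a _ => hml a), Finset.sum_add_distrib,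
      Finset.sum_add_distrib, Finset.sum_ite_eq', Finset.sum_ite_eq', if_pos hσQ, if_pos hτQ]
    ring
  have hset : {q : K | TR.ml N h q ≠ 0} = ((Q.filter fun q => TR.ml N h q ≠ 0 : Finset K) : Set K) := by
    ext q
    rw [Finset.coe_filter]
    constructor
    · intro hq
      refine ⟨?_, hq⟩
      by_contra hcon
      apply hq
      have h1 := hml q
      have h2 : h.eigenspace q = ⊥ := by
        by_contra h3
        exact hcon (by rw [hQ, Finset.mem_union]; exact Or.inl ((hΛ q).mp h3))
      rw [h2, finrank_bot] at h1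
      omega
    · rintro ⟨-, hq⟩
      exact hq
  have hnev : nev N h = (Q.filter fun q => TR.ml N h q ≠ 0).card := by
    unfold nev
    rw [hset, Set.ncard_coe_finset]
  have hle : (Q.filter fun q => TR.ml N h q ≠ 0).card ≤ ∑ a ∈ Q, TR.ml N h a := by
    rw [Finset.card_eq_sum_ones, Finset.sum_filter]
    apply Finset.sum_le_sum
    intro a _
    split_ifs with h1
    · omega
    · omega
  constructor
  · rw [hnev, Finset.card_eq_zero, Finset.filter_eq_empty_iff]
    constructor
    · intro h1
      have h2 : ∑ a ∈ Q, TR.ml N h a = 0 := Finset.sum_eq_zero fun a ha => by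
        have := h1 ha
        push Not at this
        exact this
      omega
    · intro h1 a ha
      have h2 : ∑ a ∈ Q, TR.ml N h a = 0 := by omega
      have h3 := Finset.sum_eq_zero_iff.mp h2 a ha
      simp [h3]
  · rw [hnev]
    omega

/-- Shifting a diagonalizable operator with rational eigenvalues by a rational number. -/
theorem diag_sub {K : Type*} [Field K] [CharZero K] {V : Type*} [AddCommGroup V] [Module K V]
    {h : Module.End K V} (hdiag : ⨆ q : ℚ, h.eigenspace (q : K) = ⊤) (c : ℚ) :
    ⨆ q : ℚ, (h - (c : K) • (1 : Module.End K V)).eigenspace (q : K) = ⊤ := by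
  rw [eq_top_iff, ← hdiag]
  refine iSup_le fun q => ?_
  refine le_trans ?_ (le_iSup _ (q - c))
  intro v hv
  rw [Module.End.mem_eigenspace_iff] at hv ⊢
  rw [LinearMap.sub_apply, LinearMap.smul_apply, Module.End.one_apply, hv, ← sub_smul]
  push_cast
  rfl

end FR
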