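import Pool.Agent.Helper2.FR.FN
import Pool.Agent.Helper58.AV.P4b
import Pool.Agent.Helper9.AV.OO

/-!
A linked pair `sl_4`, `so_6` (project FR, block FX4).
-/

set_option linter.unusedVariables false
set_option linter.unusedSectionVars false
set_option linter.unusedSimpArgs false

open Module

namespace FR

open MTP UN AV

variable {K : Type*} [Field K] [CharZero K] {W₁ W₂ : Type*} [AddCommGroup W₁]
  [Module K W₁] [FiniteDimensional K W₁] [AddCommGroup W₂] [Module K W₂]
  [FiniteDimensional K W₂] {L : Submodule K (Module.End K W₁ × Module.End K W₂)}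
  {b₁ : LinearMap.BilinForm K W₁} {b₂ : LinearMap.BilinForm K W₂}
  {N h : Module.End K W₁ × Module.End K W₂} {σ₁ σ₂ τ₁ τ₂ : K}

/-- Two different eigenvalues on `ker N / im N`. -/
private lemma two_eig {V : Type*} [AddCommGroup V] [Module K V] [FiniteDimensional K V]
    {N h : Module.End K V} (hn : ¬ nev N h ≤ 1) : ∃ p q : K, p ≠ q ∧
      (∃ v, N v = 0 ∧ h v = p • v ∧ v ∉ LinearMap.range N) ∧
      (∃ v, N v = 0 ∧ h v = q • v ∧ v ∉ LinearMap.range N) := by
  have key : ∀ a : K, TR.ml N h a ≠ 0 → ∃ v, N v = 0 ∧ h v = a • v ∧ v ∉ LinearMap.range N := by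
    intro a ha
    by_contra hcon
    push Not at hcon
    apply ha
    have h1 : LinearMap.ker N ⊓ h.eigenspace a ≤ LinearMap.range N ⊓ h.eigenspace a := by
      rintro v ⟨hv1, hv2⟩
      exact ⟨hcon v (LinearMap.mem_ker.mp hv1) (Module.End.mem_eigenspace_iff.mp hv2), hv2⟩
    have h2 := Submodule.finrank_mono h1
    unfold TR.ml
    exact Nat.sub_eq_zero_of_le h2
  unfold nev at hn
  rw [not_le] at hn
  have hfin : {q : K | TR.ml N h q ≠ 0}.Finite := Set.finite_of_ncard_ne_zero (by omega)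
  obtain ⟨p, hp, q, hq, hpq⟩ := (Set.one_lt_ncard hfin).mp hn
  exact ⟨p, q, hpq, key p hp, key q hq⟩

/-- An eigenvector outside of the kernel. -/
private lemma exists_out {V : Type*} [AddCommGroup V] [Module K V] [FiniteDimensional K V]
    {N h : Module.End K V} (hN : N ≠ 0) {τ : K} (hτ : N * h = τ • N)
    (hdiag : ⨆ q : ℚ, h.eigenspace (q : K) = ⊤) : ∃ v, N v ≠ 0 ∧ h v = τ • v := by
  by_contra hcon
  push Not at hcon
  apply hN
  have h1 : (⊤ : Submodule K V) ≤ LinearMap.ker N := by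
    rw [← hdiag]
    refine iSup_le fun q v hv => ?_
    rw [LinearMap.mem_ker]
    by_contra hne
    rw [Module.End.mem_eigenspace_iff] at hv
    have h2 : (q : K) • N v = τ • N v := by
      have h3 := LinearMap.congr_fun hτ v
      rw [Module.End.mul_apply, hv, map_smul, LinearMap.smul_apply] at h3
      exact h3
    have h3 : ((q : K) - τ) • N v = 0 := by rw [sub_smul, h2, sub_self]
    rcases smul_eq_zero.mp h3 with h4 | h4
    · exact hcon v hne (by rw [hv, sub_eq_zero.mp h4])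
    · exact hne h4
  exact LinearMap.ker_eq_top.mp (top_le_iff.mp h1)

private lemma half_pos {R : Type*} [Ring R] [Algebra K R] {P N x : R} (hP : P * P = P)
    (hx : x = P - (2 : K)⁻¹ • 1) (h : x * N - N * x = N) : x * N = (2 : K)⁻¹ • N := by
  have h1 : P * N - N * P = N := by
    have h0 : x * N - N * x = P * N - N * P := by
      rw [hx, sub_mul, mul_sub, smul_mul_assoc, one_mul, mul_smul_comm, mul_one]
      abel
    rw [← h0]
    exact h
  have h2 : P * N * P = 0 := by
    have h3 : P * (P * N - N * P) = P * N := by rw [h1]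
    rw [mul_sub, ← mul_assoc, hP, ← mul_assoc] at h3
    exact sub_eq_self.mp h3
  have h4 : N * P = 0 := by
    have h3 : (P * N - N * P) * P = N * P := by rw [h1]
    rw [sub_mul, h2, mul_assoc, hP, zero_sub] at h3
    have h5 : (2 : K) • (N * P) = 0 := by
      rw [two_smul]
      nth_rewrite 1 [← h3]
      abel
    exact (smul_eq_zero.mp h5).resolve_left two_ne_zero
  rw [h4, sub_zero] at h1
  rw [hx, sub_mul, h1, smul_mul_assoc, one_mul]
  have : N - (2 : K)⁻¹ • N = (1 - (2 : K)⁻¹) • N := by rw [sub_smul, one_smul]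
  rw [this]
  congr 1
  norm_num

private lemma half_neg {R : Type*} [Ring R] [Algebra K R] {P N x : R} (hP : P * P = P)
    (hx : x = P - (2 : K)⁻¹ • 1) (h : x * N - N * x = -N) : x * N = -((2 : K)⁻¹ • N) := by
  have h1 : P * N - N * P = -N := by
    have h0 : x * N - N * x = P * N - N * P := by
      rw [hx, sub_mul, mul_sub, smul_mul_assoc, one_mul, mul_smul_comm, mul_one]
      abel
    rw [← h0]
    exact h
  have h2 : P * N * P = 0 := by
    have h3 : (P * N - N * P) * P = -N * P := by rw [h1]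
    rw [sub_mul, mul_assoc N P P, hP, neg_mul] at h3
    have h4 : P * N * P - N * P + N * P = -(N * P) + N * P := by rw [h3]
    rw [sub_add_cancel, neg_add_cancel] at h4
    exact h4
  have h4 : P * N = 0 := by
    have h3 : P * (P * N - N * P) = P * -N := by rw [h1]
    rw [mul_sub, ← mul_assoc, hP, ← mul_assoc, h2, sub_zero, mul_neg] at h3
    have h5 : (2 : K) • (P * N) = 0 := by
      rw [two_smul]
      nth_rewrite 1 [h3]
      abel
    exact (smul_eq_zero.mp h5).resolve_left two_ne_zero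
  rw [hx, sub_mul, h4, smul_mul_assoc, one_mul, zero_sub]

private lemma quarter {R : Type*} [Ring R] [Algebra K R] {P x : R} (hP : P * P = P)
    (hx : x = P - (2 : K)⁻¹ • 1) : x * x = (4 : K)⁻¹ • 1 := by
  rw [hx, sub_mul, mul_sub, mul_sub, hP, smul_mul_assoc, smul_mul_assoc, one_mul, mul_smul_comm, mul_one,
    mul_smul_comm, mul_one, smul_smul]
  have : P - (2 : K)⁻¹ • P - ((2 : K)⁻¹ • P - ((2 : K)⁻¹ * (2 : K)⁻¹) • (1 : R)) =
      (1 - 2⁻¹ - 2⁻¹ : K) • P + ((2 : K)⁻¹ * (2 : K)⁻¹) • 1 := by module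
  rw [this]
  norm_num

variable [IsAlgClosed K]

/-- The second component over an idempotent of rank one. -/
private lemma idem_type (hL : Lk L) (hb2 : b₂.Nondegenerate) (ha2 : ∀ v w, b₂ v w = b₂ w v)
    (h1 : On1 L (slw K W₁)) (h2 : On2 L (skw b₂)) (hd1 : finrank K W₁ = 4)
    (hd2 : finrank K W₂ = 6) {q : Module.End K W₁} (hq : q * q = q) (hr : rk q = 1) :
    ∃ x ∈ L, x.1 = q - (4 : K)⁻¹ • 1 ∧ ∃ P : Module.End K W₂, P * P = P ∧
      x.2 = P - (2 : K)⁻¹ • 1 := by
  have hq0 : q ≠ 0 := by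
    rintro rfl
    rw [MTP.rk, LinearMap.range_zero, finrank_bot] at hr
    exact zero_ne_one hr
  have hq1 : q ≠ 1 := by
    rintro rfl
    have h3 : MTP.rk (1 : Module.End K W₁) = finrank K W₁ := by
      rw [MTP.rk, Module.End.one_eq_id, LinearMap.range_id, finrank_top]
    omega
  have hm : q - (4 : K)⁻¹ • 1 ∈ slw K W₁ := by
    have ht := LK.trace_idem hq
    rw [slw, LinearMap.mem_ker, map_sub, map_smul, ht, LinearMap.trace_one, smul_eq_mul, hd1]
    rw [show MTP.rk q = 1 from hr]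
    norm_num
  obtain ⟨x, hx, hx1⟩ := P4.lift1 h1 hm
  refine ⟨x, hx, hx1, ?_⟩
  have hg : Grd (skw b₂) x.2 := P4.grd12 hL h1 h2 hx (by rw [hx1]; exact P4.grd_idem _ hq _)
  have hne : x.2 ≠ 0 := by
    intro h0
    have h3 := hL.k2 _ hx h0
    rw [hx1, sub_eq_zero] at h3
    rw [h3, smul_mul_smul_comm, one_mul] at hq
    have h4 : ((4 : K)⁻¹ * 4⁻¹ - 4⁻¹) • (1 : Module.End K W₁) = 0 := by
      rw [sub_smul, hq, sub_self]
    have : Nontrivial W₁ := Module.nontrivial_of_finrank_pos (R := K) (by omega)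
    have h5 := (smul_eq_zero.mp h4).resolve_right one_ne_zero
    norm_num at h5
  have hG : finrank K (Gone (skw b₂) x.2) = 3 := by
    rw [← P4.gone_eq hL h1 h2 hx, hx1, dim_sl_one hq hq0 hq1, hr, hd1]
  rcases grd_so hb2 ha2 (by omega) (P4.mem2 h2 hx) hne hg with h3 | h3
  · exact h3
  · exfalso
    have h4 := dim_so_vec hb2 ha2 (P4.mem2 h2 hx) h3.1 h3.2
    omega

/-- FX4 -/
theorem pair_four (hL : Lk L) (hb2 : b₂.Nondegenerate) (ha2 : ∀ v w, b₂ v w = b₂ w v)
    (h1 : On1 L (slw K W₁)) (h2 : On2 L (skw b₂)) (hd1 : finrank K W₁ = 4)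
    (hd2 : finrank K W₂ = 6) (hN : N ∈ L) (hh : h ∈ L) (hNN : N.1 * N.1 = 0) (hr : rk N.1 = 1)
    (hσ1 : h.1 * N.1 = σ₁ • N.1) (hτ1 : N.1 * h.1 = τ₁ • N.1) (hσ2 : h.2 * N.2 = σ₂ • N.2)
    (hdiag : ⨆ q : ℚ, h.1.eigenspace (q : K) = ⊤) : nev N.1 h.1 ≤ 1 := by
  by_contra hcon
  obtain ⟨p, q, hpq, ⟨n3, hN3, hh3, hn3⟩, ⟨n4, hN4, hh4, hn4⟩⟩ := two_eig hcon
  have hN0 : N.1 ≠ 0 := by
    intro h0
    rw [h0, MTP.rk, LinearMap.range_zero, finrank_bot] at hr
    exact zero_ne_one hr
  have hN20 : N.2 ≠ 0 := fun h0 => hN0 (hL.k2 N hN h0)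
  obtain ⟨n2, hn2, hh2⟩ := exists_out hN0 hτ1 hdiag
  set n1 := N.1 n2 with hn1
  have hN1 : N.1 n1 = 0 := LinearMap.congr_fun hNN n2
  have hh1 : h.1 n1 = σ₁ • n1 := LinearMap.congr_fun hσ1 n2
  have hr1 : ∀ c : K, c • n1 ∈ LinearMap.range N.1 := fun c => ⟨c • n2, by rw [map_smul]⟩
  -- the basis
  have hli : LinearIndependent K ![n1, n2, n3, n4] := by
    rw [Fintype.linearIndependent_iff]
    intro g hg
    simp only [Fin.sum_univ_four, Matrix.cons_val_zero, Matrix.cons_val_one, Matrix.cons_val] at hg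
    have e1 : g 1 = 0 := by
      have h3 := congrArg N.1 hg
      simp only [map_add, map_smul, hN1, hN3, hN4, smul_zero, zero_add, add_zero, map_zero] at h3
      exact (smul_eq_zero.mp h3).resolve_right hn2
    rw [e1, zero_smul, add_zero] at hg
    have e2 : g 3 = 0 := by
      have h3 := congrArg h.1 hg
      simp only [map_add, map_smul, hh1, hh3, hh4, map_zero] at h3
      have h4 : (g 3 * (q - p)) • n4 = (g 0 * (p - σ₁)) • n1 := by
        have h5 : g 0 • σ₁ • n1 + g 2 • p • n3 + g 3 • q • n4 - p • (g 0 • n1 + g 2 • n3 + g 3 • n4) = 0 := by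
          rw [h3, hg, smul_zero, sub_zero]
        have h6 : g 0 • σ₁ • n1 + g 2 • p • n3 + g 3 • q • n4 - p • (g 0 • n1 + g 2 • n3 + g 3 • n4) =
            (g 3 * (q - p)) • n4 - (g 0 * (p - σ₁)) • n1 := by module
        rw [h6, sub_eq_zero] at h5
        exact h5
      by_contra hne
      have hc : g 3 * (q - p) ≠ 0 := mul_ne_zero hne (sub_ne_zero.mpr (Ne.symm hpq))
      apply hn4
      have h5 : n4 = ((g 3 * (q - p))⁻¹ * (g 0 * (p - σ₁))) • n1 := by
        rw [mul_smul, ← h4, smul_smul, inv_mul_cancel₀ hc, one_smul]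
      rw [h5]
      exact hr1 _
    rw [e2, zero_smul, add_zero] at hg
    have e3 : g 2 = 0 := by
      by_contra hne
      apply hn3
      have h5 : n3 = (-((g 2)⁻¹ * g 0)) • n1 := by
        have h6 : g 2 • n3 = -(g 0 • n1) := by
          rw [eq_neg_iff_add_eq_zero, add_comm]; exact hg
        rw [neg_smul, mul_smul, ← smul_neg, ← h6, smul_smul, inv_mul_cancel₀ hne, one_smul]
      rw [h5]
      exact hr1 _
    rw [e3, zero_smul, add_zero] at hg
    have e0 : g 0 = 0 := (smul_eq_zero.mp hg).resolve_right hn2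
    intro i
    fin_cases i
    · exact e0
    · exact e1
    · exact e3
    · exact e2
  have : Nonempty (Fin 4) := ⟨0⟩
  let B : Basis (Fin 4) K W₁ := basisOfLinearIndependentOfCardEqFinrank hli (by
    rw [hd1, Fintype.card_fin])
  have B0 : B 0 = n1 := by simp [B]
  have B1 : B 1 = n2 := by simp [B]
  have B2 : B 2 = n3 := by simp [B]
  have B3 : B 3 = n4 := by simp [B]
  have hNB : ∀ i, N.1 (B i) = if i = 1 then B 0 else 0 := by
    intro i
    fin_cases i
    · simp [B0, hN1]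
    · simp [B0, B1]
      rfl
    · simp [B2, hN3]
    · simp [B3, hN4]
  -- elementary matrices
  set u : Fin 4 → Fin 4 → Module.End K W₁ := fun i j => (B.coord j).smulRight (B i) with hu
  have uB : ∀ i j k, u i j (B k) = if k = j then B i else 0 := by
    intro i j k
    rw [hu]
    simp only [LinearMap.smulRight_apply, Basis.coord_apply, Basis.repr_self, Finsupp.single_apply]
    split_ifs
    · rw [one_smul]
    · rw [zero_smul]
  have hidem : ∀ i, u i i * u i i = u i i := by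
    intro i
    apply B.ext
    intro k
    rw [Module.End.mul_apply, uB]
    split_ifs with h3
    · rw [uB, if_pos rfl]
    · rw [map_zero]
  have hrk : ∀ i, rk (u i i) = 1 := by
    intro i
    apply P3.rk_smulRight
    · intro h0
      have h3 := LinearMap.congr_fun h0 (B i)
      simp at h3
    · exact B.ne_zero i
  have hx := fun i => idem_type hL hb2 ha2 h1 h2 hd1 hd2 (hidem i) (hrk i)
  choose X hX hX1 P hP hX2 using hx
  have hbr0 : (X 0).2 * N.2 - N.2 * (X 0).2 = N.2 := by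
    have h3 := hL.k1 (X 0 * N - N * X 0 - N) (L.sub_mem (hL.br _ (hX 0) _ hN) hN) (by
      change (X 0).1 * N.1 - N.1 * (X 0).1 - N.1 = 0
      rw [sub_eq_zero, hX1]
      apply B.ext
      intro j
      rw [LinearMap.sub_apply, Module.End.mul_apply, Module.End.mul_apply, LinearMap.sub_apply, LinearMap.sub_apply,
        uB, hNB]
      fin_cases j <;> simp [uB, hNB])
    exact sub_eq_zero.mp h3
  have hbr1 : (X 1).2 * N.2 - N.2 * (X 1).2 = -N.2 := by
    have h3 := hL.k1 (X 1 * N - N * X 1 + N) (L.add_mem (hL.br _ (hX 1) _ hN) hN) (by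
      change (X 1).1 * N.1 - N.1 * (X 1).1 + N.1 = 0
      rw [hX1]
      apply B.ext
      intro j
      rw [LinearMap.add_apply, LinearMap.sub_apply, Module.End.mul_apply, Module.End.mul_apply, LinearMap.sub_apply,
        LinearMap.sub_apply, uB, hNB]
      fin_cases j <;> simp [uB, hNB] <;> abel)
    exact add_eq_zero_iff_eq_neg.mp h3
  have g0 := half_pos (hP 0) (hX2 0) hbr0
  have g1 := half_neg (hP 1) (hX2 1) hbr1
  have hs1 : u 0 0 + u 1 1 + u 2 2 + u 3 3 = 1 := by
    apply B.ext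
    intro j
    simp only [LinearMap.add_apply, uB, Module.End.one_apply]
    fin_cases j <;> simp
  have hsum : (X 0).2 + (X 1).2 + (X 2).2 + (X 3).2 = 0 := by
    apply hL.k1 (X 0 + X 1 + X 2 + X 3) (L.add_mem (L.add_mem (L.add_mem (hX 0) (hX 1)) (hX 2)) (hX 3))
    change (X 0).1 + (X 1).1 + (X 2).1 + (X 3).1 = 0
    rw [hX1, hX1, hX1, hX1]
    have e4 : (4 : K)⁻¹ + 4⁻¹ + 4⁻¹ + 4⁻¹ = 1 := by norm_num
    have e5 : u 0 0 - (4 : K)⁻¹ • (1 : Module.End K W₁) + (u 1 1 - (4 : K)⁻¹ • 1) +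
        (u 2 2 - (4 : K)⁻¹ • 1) + (u 3 3 - (4 : K)⁻¹ • 1) =
        (u 0 0 + u 1 1 + u 2 2 + u 3 3) - ((4 : K)⁻¹ + 4⁻¹ + 4⁻¹ + 4⁻¹) • (1 : Module.End K W₁) := by
      module
    rw [e5, hs1, e4, one_smul, sub_self]
  -- the elements which exchange `n3` and `n4`
  have hmul : ∀ i j k l, u i j * u k l = if k = j then u i l else 0 := by
    intro i j k l
    apply B.ext
    intro t
    rw [Module.End.mul_apply, uB]
    split_ifs with h3 h4 h4
    · rw [uB, if_pos h4, uB, if_pos h3]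
    · rw [uB, if_neg h4, LinearMap.zero_apply]
    · rw [map_zero, uB, if_neg h3]
    · rw [map_zero, LinearMap.zero_apply]
  have htr : ∀ i j, i ≠ j → u i j ∈ slw K W₁ := by
    intro i j hij
    rw [slw, LinearMap.mem_ker]
    have e1 : u i j = u i i * u i j - u i j * u i i := by
      rw [hmul, hmul, if_pos rfl, if_neg hij, sub_zero]
    rw [e1, map_sub, LinearMap.trace_mul_comm, sub_self]
  have hNu : ∀ i j : Fin 4, i ≠ 1 → j ≠ 0 → N.1 * u i j = 0 ∧ u i j * N.1 = 0 := by
    intro i j hi hj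
    constructor
    · apply B.ext
      intro t
      rw [Module.End.mul_apply, uB, LinearMap.zero_apply]
      split_ifs
      · rw [hNB, if_neg hi]
      · rw [map_zero]
    · apply B.ext
      intro t
      rw [Module.End.mul_apply, hNB, LinearMap.zero_apply]
      split_ifs
      · rw [uB, if_neg (Ne.symm hj)]
      · rw [map_zero]
  have hev : ∃ e : Fin 4 → K, e 2 = p ∧ e 3 = q ∧ ∀ i, h.1 (B i) = e i • B i := by
    refine ⟨![σ₁, τ₁, p, q], rfl, rfl, ?_⟩
    intro i
    fin_cases i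
    · simp [B0, hh1]
    · simp [B1, hh2]
    · simp [B2, hh3]
    · simp [B3, hh4]
  obtain ⟨e, he2, he3, he⟩ := hev
  have hhu : ∀ i j : Fin 4, h.1 * u i j - u i j * h.1 = (e i - e j) • u i j := by
    intro i j
    apply B.ext
    intro t
    rw [LinearMap.sub_apply, Module.End.mul_apply, Module.End.mul_apply, LinearMap.smul_apply, he, map_smul, uB]
    split_ifs with h3
    · rw [he, h3, sub_smul]
    · rw [map_zero, smul_zero, smul_zero, sub_zero]
  have hkill : ∀ (i j : Fin 4), i ≠ 1 → j ≠ 0 → i ≠ j → e i ≠ e j → ∀ Y ∈ L, Y.1 = u i j →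
      Y.2 * N.2 = 0 := by
    intro i j hi hj hij hne Y hY hY1
    obtain ⟨a1, a2⟩ := hNu i j hi hj
    have c1 : Y.2 * N.2 = N.2 * Y.2 := by
      have h3 := hL.k1 (Y * N - N * Y) (hL.br _ hY _ hN) (by
        change Y.1 * N.1 - N.1 * Y.1 = 0
        rw [hY1, a1, a2, sub_zero])
      exact sub_eq_zero.mp h3
    have c2 : h.2 * Y.2 - Y.2 * h.2 = (e i - e j) • Y.2 := by
      have h3 := hL.k1 (h * Y - Y * h - (e i - e j) • Y)
        (L.sub_mem (hL.br _ hh _ hY) (L.smul_mem _ hY)) (by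
        change h.1 * Y.1 - Y.1 * h.1 - (e i - e j) • Y.1 = 0
        rw [hY1, hhu, sub_self])
      exact sub_eq_zero.mp h3
    have c3 : (e i - e j) • (Y.2 * N.2) = 0 := by
      rw [← smul_mul_assoc, ← c2, sub_mul, mul_assoc, mul_assoc, hσ2, c1, ← mul_assoc, hσ2,
        mul_smul_comm, c1, smul_mul_assoc, sub_self]
    exact (smul_eq_zero.mp c3).resolve_left (sub_ne_zero.mpr hne)
  obtain ⟨Y, hY, hY1⟩ := P4.lift1 h1 (htr 2 3 (by decide))
  obtain ⟨Z, hZ, hZ1⟩ := P4.lift1 h1 (htr 3 2 (by decide))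
  have k1 := hkill 2 3 (by decide) (by decide) (by decide) (by rw [he2, he3]; exact hpq) Y hY hY1
  have k2 := hkill 3 2 (by decide) (by decide) (by decide) (by rw [he2, he3]; exact hpq.symm) Z hZ hZ1
  have hYZ : Y.2 * Z.2 - Z.2 * Y.2 = (X 2).2 - (X 3).2 := by
    have h3 := hL.k1 (Y * Z - Z * Y - (X 2 - X 3)) (L.sub_mem (hL.br _ hY _ hZ)
      (L.sub_mem (hX 2) (hX 3))) (by
      change Y.1 * Z.1 - Z.1 * Y.1 - ((X 2).1 - (X 3).1) = 0
      rw [hY1, hZ1, hX1, hX1, hmul, hmul, if_pos rfl, if_pos rfl]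
      abel)
    exact sub_eq_zero.mp h3
  have f1 : (X 2).2 * N.2 = (X 3).2 * N.2 := by
    have h3 := congrArg (fun y => y * N.2) hYZ
    simp only [sub_mul, mul_assoc, k1, k2, mul_zero, sub_zero] at h3
    exact (sub_eq_zero.mp h3.symm)
  have f2 : (X 2).2 * N.2 = 0 := by
    have h3 := congrArg (fun y => y * N.2) hsum
    simp only [add_mul, g0, g1, ← f1, zero_mul, add_neg_cancel, zero_add] at h3
    have h4 : (2 : K) • ((X 2).2 * N.2) = 0 := by rw [two_smul]; exact h3
    exact (smul_eq_zero.mp h4).resolve_left two_ne_zero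
  apply hN20
  have f3 : (4 : K)⁻¹ • N.2 = 0 := by
    have h3 := quarter (hP 2) (hX2 2)
    have h4 : (X 2).2 * (X 2).2 * N.2 = 0 := by rw [mul_assoc, f2, mul_zero]
    rw [h3, smul_mul_assoc, one_mul] at h4
    exact h4
  exact (smul_eq_zero.mp f3).resolve_left (by norm_num)

end FR
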