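import Pool.Agent.Helper20.AV.GR
import Pool.Agent.Helper2.FR.Defs

/-!
A group whose Lie algebra is as large as possible contains the derived group of the Lefschetz
group: with orthogonal blocks of dimension eight.
-/

set_option linter.unusedSimpArgs false
set_option linter.unusedSectionVars false
set_option linter.unusedVariables false

open Module

attribute [local instance 100] LieRing.ofAssociativeRing

namespace FR

open MTP UN AV

variable {K : Type*} [Field K] [IsAlgClosed K] [CharZero K] {V : Type*} [AddCommGroup V]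
  [Module K V] [FiniteDimensional K V]
  {ω : LinearMap.BilinForm K V} {G : Set (Module.End K V)}
  {T : Set (Module.End K V ≃+* Module.End K V)} {p0 : Module.End K V}

/-- The component of `g` in a block and its adjoint. -/
lemma exists_co (D : MStr ω G T p0) (hf : FullM ω G T p0)
    (hexp : ∀ x ∈ ML G T p0, x * x = 0 → 1 + x ∈ G) {ε : Module.End K V}
    (hε : Bl (AA G T p0) ε) {W : Submodule K V}
    (hW : Irr (AA G T p0 : Set (Module.End K V)) W) (hWε : InB ε W)
    (ht : TyU ω ε W ∨ TyS ω (AA G T p0) ε W ∨ TyO ω (AA G T p0) ε W ∨ TyE ω (AA G T p0) ε W)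
    {g : Module.End K V}
    (hgA : g ∈ AA G T p0) (hgi : ∀ v w, ω (g v) (g w) = ω v w)
    (hdet : LinearMap.det (Rw W g) = 1) :
    ∃ γ, GRP.Co ω G T p0 ε γ ∧ Rw W γ = Rw W g := by
  rcases ht with ht | ht | ht | ht
  · exact GRP.exists_co D hf hexp hε hW hWε (Or.inl ht) hgA hgi hdet
  · exact GRP.exists_co D hf hexp hε hW hWε (Or.inr (Or.inl ht)) hgA hgi hdet
  · exact GRP.exists_co D hf hexp hε hW hWε (Or.inr (Or.inr ht)) hgA hgi hdet
  have R := SS.rs D.ssA hε hW hWε
  obtain ⟨g', hg'A, hgg', -⟩ := D.exists_adj hgA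
  obtain ⟨hg1, hg2⟩ := GRP.iso_inv D.nd hgi hgg'
  suffices h : Rw W g ∈ GRP.Mo D (ε := ε) hW from h
  obtain ⟨hs, hd, b, hb, hba⟩ := ht
  have hiso : ∀ v w, b (Rw W g v) (Rw W g w) = b v w := by
    intro v w
    rw [hb.adj g hgA g' hg'A hgg' v (Rw W g w)]
    congr 1
    apply Subtype.ext
    rw [Rw_coe (fun w hw => hW.st _ hg'A w hw), Rw_coe (fun w hw => hW.st _ hgA w hw),
      ← Module.End.mul_apply, hg1, Module.End.one_apply]
  have hsd : ∀ x, IsSk b x → x * x = 0 → 1 + x ∈ GRP.Mo D (ε := ε) hW := by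
    intro N hN hNN
    obtain ⟨x, hx, rfl⟩ := R.surj N
    have hxx : x * x = 0 := R.inj _ (R.mul x hx x hx) (by rw [R.hom x hx x hx, hNN])
    apply GRP.mem_Mo D hf hexp hW hx.1 ((hb.sk x hx.1 hx.2).2 hN) hxx
    intro δ hδ h1 _
    rw [← hx.2, mul_assoc, hε.orth hδ h1.symm, mul_zero]
  exact so_gen hb.nd hba (by omega) _ hsd hiso hdet

/-- GR -/
theorem mem_of_full (D : MStr ω G T p0) (hf : FullM ω G T p0)
    (ht : ∀ ε, Bl (AA G T p0) ε → ∃ W, Irr (AA G T p0 : Set (Module.End K V)) W ∧ InB ε W ∧
      (TyU ω ε W ∨ TyS ω (AA G T p0) ε W ∨ TyO ω (AA G T p0) ε W ∨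
        TyE ω (AA G T p0) ε W))
    (hexp : ∀ x ∈ ML G T p0, x * x = 0 → 1 + x ∈ G) {g : Module.End K V}
    (hgA : g ∈ AA G T p0) (hgi : ∀ v w, ω (g v) (g w) = ω v w)
    (hdet : ∀ W, Irr (AA G T p0 : Set (Module.End K V)) W → LinearMap.det (Rw W g) = 1) :
    g ∈ G := by
  classical
  have main : ∀ (n : ℕ) (g : Module.End K V), g ∈ AA G T p0 →
      (∀ v w, ω (g v) (g w) = ω v w) →
      (∀ ε, Bl (AA G T p0) ε → ∀ W, Irr (AA G T p0 : Set (Module.End K V)) W → InB ε W →
        LinearMap.det (Rw W g) = 1) →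
      ((bls (AA G T p0)).filter (fun ε => g * ε ≠ ε)).card = n → g ∈ G := by
    intro n
    induction n using Nat.strong_induction_on with
    | _ n ih =>
      intro g hgA hgi hdet hn
      by_cases h0 : ∀ ε, Bl (AA G T p0) ε → g * ε = ε
      · have h1 : g = 1 := by
          rw [← mul_one g, ← sum_bls (AA G T p0), Finset.mul_sum]
          apply Finset.sum_congr rfl
          intro ε hε
          exact h0 ε (mem_bls.1 hε)
        rw [h1]
        exact D.one
      push Not at h0
      obtain ⟨ε, hε, hgε⟩ := h0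
      obtain ⟨W, hW, hWε, hty⟩ := ht ε hε
      obtain ⟨γ, hγ, hγg⟩ := exists_co D hf hexp hε hW hWε hty hgA hgi
        (hdet ε hε W hW hWε)
      obtain ⟨e1, e2⟩ := GRP.co_eq D hε hW hWε hgA hgi hγ.memA hγ.iso hγg
      obtain ⟨γ', hγ'A, hγγ', -⟩ := D.exists_adj hγ.memA
      obtain ⟨i1, i2⟩ := GRP.iso_inv D.nd hγ.iso hγγ'
      -- `γ'` is in the group
      have hγ'G : γ' ∈ G := by
        obtain ⟨h, hh, h1, h2⟩ := D.inv γ hγ.mem
        have : γ' = h := by
          calc γ' = γ' * (γ * h) := by rw [h1, mul_one]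
            _ = h := by rw [← mul_assoc, i1, one_mul]
        rwa [this]
      have hγ'i : ∀ v w, ω (γ' v) (γ' w) = ω v w := by
        intro v w
        rw [← hγ.iso, ← Module.End.mul_apply, ← Module.End.mul_apply, i2]
        rfl
      have hprod : γ * (γ' * g) = g := by rw [← mul_assoc, i2, one_mul]
      have hA : γ' * g ∈ AA G T p0 := Subalgebra.mul_mem _ hγ'A hgA
      -- the trivial blocks
      have t1 : (γ' * g) * ε = ε := by rw [mul_assoc, ← e1, ← mul_assoc, i1, one_mul]
      have t2 : ∀ δ, Bl (AA G T p0) δ → IsAdj ω ε δ → (γ' * g) * δ = δ := by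
        intro δ hδ hεδ
        rw [mul_assoc, ← e2 δ hδ hεδ, ← mul_assoc, i1, one_mul]
      have t3 : ∀ δ, Bl (AA G T p0) δ → δ ≠ ε → ¬ IsAdj ω ε δ →
          (γ' * g) * δ = g * δ := by
        intro δ hδ h1 h2
        have h3 := hγ.out δ hδ h1 h2
        have h4 : γ' * δ = δ := by
          nth_rewrite 1 [← h3]
          rw [← mul_assoc, i1, one_mul]
        rw [mul_assoc, ← hδ.cen g hgA, ← mul_assoc, h4]
      have hmem : γ' * g ∈ G := by
        refine ih _ ?_ (γ' * g) hA ?_ ?_ rfl
        · rw [← hn]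
          apply Finset.card_lt_card
          rw [Finset.ssubset_iff_of_subset]
          · refine ⟨ε, ?_, ?_⟩
            · rw [Finset.mem_filter]
              exact ⟨mem_bls.2 hε, hgε⟩
            · rw [Finset.mem_filter]
              exact fun h => h.2 t1
          · intro δ hδ
            rw [Finset.mem_filter] at hδ ⊢
            refine ⟨hδ.1, ?_⟩
            have hδ' := mem_bls.1 hδ.1
            by_cases h1 : δ = ε
            · subst h1
              exact absurd t1 hδ.2
            by_cases h2 : IsAdj ω ε δ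
            · exact absurd (t2 δ hδ' h2) hδ.2
            · rw [← t3 δ hδ' h1 h2]
              exact hδ.2
        · intro v w
          rw [Module.End.mul_apply, Module.End.mul_apply, hγ'i, hgi]
        · intro δ hδ U hU hUδ
          have hval : ∀ f ∈ AA G T p0, ∀ f' ∈ AA G T p0, f * δ = f' * δ → Rw U f = Rw U f' := by
            intro f hf f' hf' he
            apply LinearMap.ext
            intro w
            apply Subtype.ext
            rw [Rw_coe (fun w hw => hU.st _ hf w hw), Rw_coe (fun w hw => hU.st _ hf' w hw),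
              ← hUδ w w.2, ← Module.End.mul_apply, ← Module.End.mul_apply, he]
          by_cases h1 : (γ' * g) * δ = δ
          · rw [hval _ hA 1 (Subalgebra.one_mem _) (by rw [h1, one_mul]), GRP.rw_one,
              map_one]
          · have h2 : (γ' * g) * δ = g * δ := by
              by_cases h2 : δ = ε
              · subst h2
                exact absurd t1 h1
              by_cases h3 : IsAdj ω ε δ
              · exact absurd (t2 δ hδ h3) h1
              · exact t3 δ hδ h2 h3
            rw [hval _ hA g hgA h2]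
            exact hdet δ hδ U hU hUδ
      rw [← hprod]
      exact D.mul _ hγ.mem _ hmem
  exact main _ g hgA hgi (fun ε _ W hW _ => hdet W hW) rfl

end FR
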