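import Pool.Agent.Helper2.FR.PR2
import Pool.Agent.Helper2.FR.GR
import Pool.Agent.Helper2.AV.Fin

/-!
Semisimple Mumford-Tate pairs with Frobenius elements: the group theorem and the criterion.
-/

set_option linter.unusedSimpArgs false
set_option linter.unusedSectionVars false
set_option linter.unusedVariables false

open Module MTPairs

namespace FR

open MTP UN AV

variable {K : Type*} [Field K] [IsAlgClosed K] [CharZero K] {m : Type*} [Fintype m]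
  [DecidableEq m] {Γ : Subgroup (Equiv.Perm (m → K))} {J : Matrix m m K}
  {G : Subgroup (Matrix.GeneralLinearGroup m K)} {π : Matrix m m K} {W : Submodule K (m → K)}

/-- The data of an irreducible subrepresentation. -/
theorem data (D : IsStrongMTPair Γ J G π) (hr : IsReductiveRep G) [Nonempty m]
    {ε : Module.End K (m → K)} (hε : Bl (AA (GE G) (TE Γ) (Matrix.toLin' π)) ε)
    (hW : Irr (AA (GE G) (TE Γ) (Matrix.toLin' π) : Set (Module.End K (m → K))) W)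
    (hWε : InB ε W) {s r k : ℕ} (hr0 : 0 < r) (hb : BadAt Γ G π W r) (hs : HasSig Γ G π W s)
    (hf : HasFrob Γ G π W r k) :
    (∀ p ∈ SC (GE G) (TE Γ) (Matrix.toLin' π), p * ε ≠ 0 ∧ p * ε ≠ ε) ∧
    Smp (Lb (GE G) (TE Γ) (Matrix.toLin' π) ε) ∧ Lb (GE G) (TE Γ) (Matrix.toLin' π) ε ≠ ⊥ ∧
    (∃ P ∈ SC (GE G) (TE Γ) (Matrix.toLin' π),
      min (MTP.rk (Rw W P)) (finrank K W - MTP.rk (Rw W P)) = s) ∧
    ∃ N h, Plc (GE G) (TE Γ) (Matrix.toLin' π) N h ∧ N * ε ≠ 0 ∧ MTP.rk (Rw W N) = r ∧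
      nev (Rw W N) (Rw W h) = k := by
  have U := mstr D hr
  obtain ⟨l, hl, hbE, hrk⟩ := badE D hr hW hε hWε hr0 hb
  have hkr : 0 < l * r := Nat.mul_pos hl hr0
  have hns := U.ns hε hkr hbE
  have hsm := U.smp_lb hε hkr hbE
  obtain ⟨N, hNA, p1, hp1, hNN, e1, e2, hN, hN2, e5⟩ := hbE.data U hε
  have hne : Lb (GE G) (TE Γ) (Matrix.toLin' π) ε ≠ ⊥ := by
    intro h
    rw [h, Submodule.mem_bot] at hN
    rw [hN, MTP.rk_eq_zero.mpr rfl] at e5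
    omega
  obtain ⟨P, hP, hPs⟩ := hs
  obtain ⟨u, hu, g, hg, hpl, hfr, hfk⟩ := hf
  obtain ⟨h, hplc, hh⟩ := exists_plc D hr hu hg hpl
  obtain ⟨f1, f2⟩ := hh W hW
  refine ⟨hns, hsm, hne, ⟨_, GA.sc_of D hP, by rw [rk_conj D hr hW hP]; exact hPs⟩,
    _, h, hplc, ?_, by rw [f1, hfr], by rw [f2, hfk]⟩
  intro h0
  have hNA' := (plc_lb U hplc hε).2.1
  have h3 := rw_mul' U hW hWε hε.mem hNA'
  rw [h0, map_zero] at h3
  rw [← h3, MTP.rk_eq_zero.mpr rfl, hfr] at f1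
  omega

/-- **The group theorem.** -/
theorem containsDer (D : IsStrongMTPair Γ J G π) (hr : IsReductiveRep G)
    {R : Set (ℕ × ℕ × ℕ × ℕ)}
    (hR : ∀ D s r k, (D, s, r, k) ∈ R → 0 < r) (hexc : ∀ D s r k, (D, s, r, k) ∈ R →
      ¬ ExcF D s r k)
    (htwo : (4, 1, 1, 1) ∈ R → (6, 3, 2, 1) ∉ R ∧ (6, 3, 2, 2) ∉ R)
    (h : ∀ W, IsIrrSub G W → ∃ s r k, BadAt Γ G π W r ∧ HasSig Γ G π W s ∧
      HasFrob Γ G π W r k ∧ (finrank K W, s, r, k) ∈ R) : ContainsDer J G := by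
  rcases isEmpty_or_nonempty m with hm | hm
  · intro g _ _ _
    have : g = 1 := by
      apply Units.ext
      apply Matrix.ext
      intro i
      exact (hm.false i).elim
    rw [this]; exact G.one_mem
  have U := mstr D hr
  -- all blocks are good
  have hgood : ∀ ε, Bl (AA (GE G) (TE Γ) (Matrix.toLin' π)) ε → ∀ W,
      Irr (AA (GE G) (TE Γ) (Matrix.toLin' π) : Set (Module.End K (m → K))) W → InB ε W →
      Gd (fJ J) (GE G) (TE Γ) (Matrix.toLin' π) ε W ∧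
      TyF (fJ J) (GE G) (TE Γ) (Matrix.toLin' π) ε W := by
    intro ε hε W hW hWε
    obtain ⟨s, r, k, h1, h2, h3, h4⟩ := h W (irr_sub.mp (U.irr_iff.mpr hW))
    obtain ⟨hns, hsm, hne, ⟨P, hP, hPs⟩, N, h', hpl, hN0, e1, e2⟩ :=
      data D hr hε hW hWε (hR _ _ _ _ h4) h1 h2 h3
    rcases classify U hε hW hWε hns hsm hpl hN0 hP with h5 | ⟨h5, h6⟩
    · rw [hPs, e1, e2] at h5
      exact absurd h5 (hexc _ _ _ _ h4)
    · exact ⟨⟨hε, hW, hWε, hsm, hne, hns, h5⟩, h6⟩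
  have hgood' : ∀ ε, Bl (AA (GE G) (TE Γ) (Matrix.toLin' π)) ε → ∃ W,
      Gd (fJ J) (GE G) (TE Γ) (Matrix.toLin' π) ε W ∧
      TyF (fJ J) (GE G) (TE Γ) (Matrix.toLin' π) ε W := by
    intro ε hε
    obtain ⟨W, hW, hWε⟩ := hε.exists_irr
    exact ⟨W, hgood ε hε W hW hWε⟩
  -- no special pairs
  have hnospc : ∀ ε₁ ε₂ W₁ W₂, Gd (fJ J) (GE G) (TE Γ) (Matrix.toLin' π) ε₁ W₁ →
      Gd (fJ J) (GE G) (TE Γ) (Matrix.toLin' π) ε₂ W₂ → TyU (fJ J) ε₁ W₁ →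
      TyO (fJ J) (AA (GE G) (TE Γ) (Matrix.toLin' π)) ε₂ W₂ →
      Good.Lnk (GE G) (TE Γ) (Matrix.toLin' π) ε₁ ε₂ →
      ¬ Good.Spc (GE G) (TE Γ) (Matrix.toLin' π) W₁ W₂ := by
    intro ε₁ ε₂ W₁ W₂ g1 g2 hU hO hl hs
    obtain ⟨s1, r1, k1, a1, a2, a3, a4⟩ := h W₁ (irr_sub.mp (U.irr_iff.mpr g1.irr))
    obtain ⟨s2, r2, k2, b1, b2, b3, b4⟩ := h W₂ (irr_sub.mp (U.irr_iff.mpr g2.irr))
    obtain ⟨rfl, rfl, rfl, rfl⟩ := spc_ranks D hr (g1.good (Or.inl hU))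
      (g2.good (Or.inr (Or.inr hO))) hs hO (hR _ _ _ _ a4) (hR _ _ _ _ b4) a1 a2 b1 b2
    obtain ⟨-, -, -, -, N1, h1, p1, -, c1, c2⟩ :=
      data D hr g1.bl g1.irr g1.inb (hR _ _ _ _ a4) a1 a2 a3
    obtain ⟨-, -, -, -, N2, h2, p2, -, d1, d2⟩ :=
      data D hr g2.bl g2.irr g2.inb (hR _ _ _ _ b4) b1 b2 b3
    have hk1 := nev_four U g1 g2 hl hU hO hs.1 hs.2.1 p1 c1
    have hk2 := nev_six U g2.irr p2 hs.2.1 d1
    rw [c2] at hk1
    rw [d2] at hk2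
    rw [hs.1, hk1] at a4
    rw [hs.2.1] at b4
    obtain ⟨h3, h4⟩ := htwo a4
    rcases hk2 with h5 | h5 <;> rw [h5] at b4
    · exact h3 b4
    · exact h4 b4
  have hpair : ∀ ε₁ ε₂, Bl (AA (GE G) (TE Γ) (Matrix.toLin' π)) ε₁ →
      Bl (AA (GE G) (TE Γ) (Matrix.toLin' π)) ε₂ → ε₁ ≠ ε₂ → ¬ IsAdj (fJ J) ε₁ ε₂ →
      ∃ x ∈ ML (GE G) (TE Γ) (Matrix.toLin' π), x * ε₁ ≠ 0 ∧ x * ε₂ = 0 := by
    intro ε₁ ε₂ h1 h2 hne hna
    obtain ⟨W₁, g1, t1⟩ := hgood' ε₁ h1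
    obtain ⟨W₂, g2, t2⟩ := hgood' ε₂ h2
    by_contra hcon
    push Not at hcon
    have hl : Good.Lnk (GE G) (TE Γ) (Matrix.toLin' π) ε₁ ε₂ := by
      intro x hx hx2
      by_contra hx1
      exact hcon x hx hx1 hx2
    exact not_lnk U g1 g2 hne hna t1 t2 (fun u1 u2 l => hnospc _ _ _ _ g1 g2 u1 u2 l)
      (fun u1 u2 l => hnospc _ _ _ _ g2 g1 u1 u2 l) hl
  have hsm := fun ε hε => (hgood' ε hε).choose_spec.1.smp
  have hne := fun ε hε => (hgood' ε hε).choose_spec.1.ne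
  have hfu := fun ε hε => (hgood' ε hε).choose_spec.1.full
  have hM := U.fullM hsm hne hfu hpair
  intro g hgJ hgT hgdet
  have hgA : Matrix.toLin' (g : Matrix m m K) ∈ AA (GE G) (TE Γ) (Matrix.toLin' π) := by
    apply U.ssA.mem_of_comm
    intro X hX
    have h1 := hgT (LinearMap.toMatrix' X) (by
      intro g' hg'
      have h2 := hX _ (U.g_mem ⟨g', hg', rfl⟩)
      have h3 := congrArg LinearMap.toMatrix' h2
      rwa [LinearMap.toMatrix'_mul, LinearMap.toMatrix'_mul, LinearMap.toMatrix'_toLin'] at h3)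
    have h4 := congrArg Matrix.toLin' h1
    rw [GA.toLin_mul, GA.toLin_mul, Matrix.toLin'_toMatrix'] at h4
    exact h4.symm
  have hgi : ∀ v w, fJ J (Matrix.toLin' (g : Matrix m m K) v)
      (Matrix.toLin' (g : Matrix m m K) w) = fJ J v w := by
    intro v w
    rw [gb_fJ, gb_fJ, Matrix.toLin'_apply, Matrix.toLin'_apply]
    have e : ((g : Matrix m m K).mulVec v) ⬝ᵥ J.mulVec ((g : Matrix m m K).mulVec w) =
        v ⬝ᵥ ((g : Matrix m m K).transpose * J * g).mulVec w := by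
      rw [← Matrix.mulVec_mulVec, ← Matrix.mulVec_mulVec, Matrix.dotProduct_mulVec v,
        Matrix.vecMul_transpose]
    rw [e, hgJ]
  have hmem := mem_of_full U hM (fun ε hε => by
      obtain ⟨W, hW, hT⟩ := hgood' ε hε
      refine ⟨W, hW.irr, hW.inb, ?_⟩
      rcases hT with (hT | hT | hT) | ⟨hT, -⟩
      · exact Or.inl hT
      · exact Or.inr (Or.inl hT)
      · exact Or.inr (Or.inr (Or.inl hT))
      · exact Or.inr (Or.inr (Or.inr hT)))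
    (fun x hx hxx => exp_mem D hr (U.ml_der hsm hne hfu hpair hx) hxx) hgA hgi (by
      intro W hW
      have hst : ∀ v ∈ W, (g : Matrix m m K).mulVecLin v ∈ W := by
        intro v hv
        exact hW.st _ hgA v hv
      have h1 := hgdet W (irr_sub.mp (U.irr_iff.mpr hW)) hst
      have h2 : Rw W (Matrix.toLin' (g : Matrix m m K)) =
          (g : Matrix m m K).mulVecLin.restrict hst := by
        ext w
        rw [Rw_coe (x := Matrix.toLin' (g : Matrix m m K)) (fun v hv => hst v hv)]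
        rfl
      rw [h2]
      exact h1)
  obtain ⟨g', hg', he⟩ := hmem
  have : g = g' := by
    apply Units.ext
    apply Matrix.toLin'.injective
    exact he
  rw [this]; exact hg'

/-! ### The criterion -/

/-- **The exact criterion.** -/
theorem criterion {K : Type*} [Field K] [IsAlgClosed K] [CharZero K] (R : Set (ℕ × ℕ × ℕ × ℕ))
    (hR : ∀ D s r k, (D, s, r, k) ∈ R → 0 < r) :
    (∀ (m : Type) [Fintype m] [DecidableEq m] (Γ : Subgroup (Equiv.Perm (m → K)))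
      (J : Matrix m m K) (G : Subgroup (Matrix.GeneralLinearGroup m K)) (π : Matrix m m K),
      IsStrongMTPair Γ J G π → IsReductiveRep G →
      (∀ W, IsIrrSub G W → ∃ s r k, BadAt Γ G π W r ∧ HasSig Γ G π W s ∧
        HasFrob Γ G π W r k ∧ (finrank K W, s, r, k) ∈ R) → ContainsDer J G) ↔
    (∀ n j, 5 ≤ n → 2 ≤ j → 2 * j ≤ n →
      (n.choose j, (n - 1).choose (j - 1), (n - 2).choose (j - 1), 1) ∉ R ∧
      (n.choose j, (n - 1).choose (j - 1), (n - 2).choose (j - 1), 2) ∉ R) ∧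
    (∀ n, 4 ≤ n → (2 ^ (n - 1), 2 ^ (n - 2), 2 ^ (n - 3), 1) ∉ R ∧
      (2 ^ (n - 1), 2 ^ (n - 2), 2 ^ (n - 3), 2) ∉ R ∧
      (2 ^ (n - 1), 2 ^ (n - 2), 2 ^ (n - 2), 0) ∉ R) ∧
    ((4, 1, 1, 1) ∈ R → (6, 3, 2, 1) ∉ R ∧ (6, 3, 2, 2) ∉ R) := by
  have hex : ∀ {D s r k : ℕ}, ExcF D s r k → (D, s, r, k) ∈ R →
      (∀ (m : Type) [Fintype m] [DecidableEq m] (Γ : Subgroup (Equiv.Perm (m → K)))
      (J : Matrix m m K) (G : Subgroup (Matrix.GeneralLinearGroup m K)) (π : Matrix m m K),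
      IsStrongMTPair Γ J G π → IsReductiveRep G →
      (∀ W, IsIrrSub G W → ∃ s r k, BadAt Γ G π W r ∧ HasSig Γ G π W s ∧
        HasFrob Γ G π W r k ∧ (finrank K W, s, r, k) ∈ R) → ContainsDer J G) → False := by
    intro D s r k hE hmem h
    obtain ⟨m, _, _, J, G, π, h1, h2, h3, h4⟩ := hasExF_of (K := K) hE
    apply h4
    apply h m ⊥ J G π h1 h2
    intro W hW
    obtain ⟨h5, h6, h7, h8⟩ := h3 W hW
    exact ⟨s, r, k, h7, h6, h8, by rw [h5]; exact hmem⟩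
  constructor
  · intro h
    refine ⟨fun n j hn hj hjn => ⟨fun hmem => hex (Or.inl ⟨n, j, hn, hj, hjn, rfl, rfl, rfl,
        Or.inl rfl⟩) hmem h, fun hmem => hex (Or.inl ⟨n, j, hn, hj, hjn, rfl, rfl, rfl,
        Or.inr rfl⟩) hmem h⟩, fun n hn => ⟨fun hmem => hex (Or.inr ⟨n, hn, rfl, rfl,
        Or.inl ⟨rfl, Or.inl rfl⟩⟩) hmem h, fun hmem => hex (Or.inr ⟨n, hn, rfl, rfl,
        Or.inl ⟨rfl, Or.inr rfl⟩⟩) hmem h, fun hmem => hex (Or.inr ⟨n, hn, rfl, rfl,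
        Or.inr ⟨rfl, rfl⟩⟩) hmem h⟩, ?_⟩
    intro h4
    have key : ∀ k, (k = 1 ∨ k = 2) → (6, 3, 2, k) ∉ R := by
      intro k hk h6
      obtain ⟨m, _, _, J, G, π, h1, h2, h3, h5⟩ := exF_four K k hk
      apply h5
      apply h m ⊥ J G π h1 h2
      intro W hW
      rcases h3 W hW with ⟨a1, a2, a3, a4⟩ | ⟨a1, a2, a3, a4⟩
      · exact ⟨3, 2, k, a3, a2, a4, by rw [a1]; exact h6⟩
      · exact ⟨1, 1, 1, a3, a2, a4, by rw [a1]; exact h4⟩
    exact ⟨key 1 (Or.inl rfl), key 2 (Or.inr rfl)⟩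
  · rintro ⟨h1, h2, h3⟩ m _ _ Γ J G π D hr h
    refine containsDer D hr hR ?_ h3 h
    rintro d s r k hmem (⟨n, j, a1, a2, a3, rfl, rfl, rfl, rfl | rfl⟩ | ⟨n, a1, rfl, rfl, a4⟩)
    · exact (h1 n j a1 a2 a3).1 hmem
    · exact (h1 n j a1 a2 a3).2 hmem
    · rcases a4 with ⟨rfl, rfl | rfl⟩ | ⟨rfl, rfl⟩
      · exact (h2 n a1).1 hmem
      · exact (h2 n a1).2.1 hmem
      · exact (h2 n a1).2.2 hmem

end FR
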