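import Pool.Agent.Helper2.AV.Defs
import Pool.Agent.Helper21.TR.BadDefs

/-!
Strong Mumford-Tate pairs with a semisimple standard representation: places of bad reduction with
a Frobenius element.
-/

open Module

namespace MTPairs

variable {K : Type*} [Field K] {m : Type*} [Fintype m] [DecidableEq m]

/-- The elements `u` and `g` are the unipotent element and the Frobenius element of a place of
bad reduction: `u = 1 + N`, where `P N = N` and `N P = 0` for some conjugate `P` of `π` which
commutes with `g`; `g N = q N g` for some `q`; `g` has only one (generalized) eigenvalue on the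
image of `N`; and no quotient of two different eigenvalues of `g` is a root of unity. -/
structure IsPlace (Γ : Subgroup (Equiv.Perm (m → K)))
    (G : Subgroup (Matrix.GeneralLinearGroup m K)) (π : Matrix m m K)
    (u g : Matrix.GeneralLinearGroup m K) : Prop where
  coch : ∃ P : Matrix m m K, IsConj Γ G π P ∧ P * ((u : Matrix m m K) - 1) = u - 1 ∧
    ((u : Matrix m m K) - 1) * P = 0 ∧ P * (g : Matrix m m K) = g * P
  rel : ∃ q : K, (g : Matrix m m K) * ((u : Matrix m m K) - 1) =
    q • (((u : Matrix m m K) - 1) * (g : Matrix m m K))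
  img : ∃ a : K, ∀ v : m → K, ((u : Matrix m m K) - 1).mulVec v ∈
    Module.End.maxGenEigenspace (g : Matrix m m K).mulVecLin a
  root : ∀ a b : K, ∀ v w : m → K, v ≠ 0 → w ≠ 0 → (g : Matrix m m K).mulVec v = a • v →
    (g : Matrix m m K).mulVec w = b • w → ∀ n : ℕ, 0 < n → a ^ n = b ^ n → a = b

/-- For some unipotent element `u = 1 + N` and Frobenius element `g` in `G` of a place of bad
reduction, `N` has rank `r` on `W`, and `g` has exactly `k` different eigenvalues on the kernel
of `N` on `W` modulo the image of `N` on `W`. -/
def HasFrob (Γ : Subgroup (Equiv.Perm (m → K))) (G : Subgroup (Matrix.GeneralLinearGroup m K))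
    (π : Matrix m m K) (W : Submodule K (m → K)) (r k : ℕ) : Prop :=
  ∃ u ∈ G, ∃ g ∈ G, IsPlace Γ G π u g ∧
    finrank K (W.map ((u : Matrix m m K) - 1).mulVecLin) = r ∧
    {a : K | mlt (u : Matrix m m K) g W a ≠ 0}.ncard = k

end MTPairs
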