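import Pool.Agent.Helper2.AV.PR
import Pool.Agent.Helper42.AV.RD2
import Pool.Agent.Helper2.FR.FN
import Pool.Agent.Helper2.FR.FX4
import Pool.Agent.Helper56.FR.FX8b
import Pool.Agent.Helper21.FR.FD
import Pool.Agent.Helper52.FR.FD3
import Pool.Agent.Helper45.FR.FC2
import Pool.Agent.Helper67.FR.FS

/-!
Semisimple Mumford-Tate pairs with Frobenius elements: linked blocks.
-/

set_option linter.unusedSimpArgs false
set_option linter.unusedSectionVars false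
set_option linter.unusedVariables false

open Module

namespace FR

open MTP UN AV

variable {K : Type*} [Field K] [IsAlgClosed K] [CharZero K] {V : Type*} [AddCommGroup V]
  [Module K V] [FiniteDimensional K V]
  {ω : LinearMap.BilinForm K V} {G : Set (Module.End K V)}
  {T : Set (Module.End K V ≃+* Module.End K V)} {p0 ε ε₁ ε₂ : Module.End K V}
  {W W₁ W₂ : Submodule K V}

/-- The data of a block with a full Lie algebra. -/
structure Gd (ω : LinearMap.BilinForm K V) (G : Set (Module.End K V))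
    (T : Set (Module.End K V ≃+* Module.End K V)) (p0 ε : Module.End K V) (W : Submodule K V) :
    Prop where
  bl : Bl (AA G T p0) ε
  irr : Irr (AA G T p0 : Set (Module.End K V)) W
  inb : InB ε W
  smp : Smp (Lb G T p0 ε)
  ne : Lb G T p0 ε ≠ ⊥
  ns : ∀ p ∈ SC G T p0, p * ε ≠ 0 ∧ p * ε ≠ ε
  full : FullB ω G T p0 ε

lemma gd_of_good (h : Good ω G T p0 ε W) : Gd ω G T p0 ε W :=
  ⟨h.bl, h.irr, h.inb, h.smp, h.ne, h.ns, h.full⟩

lemma Gd.good (h : Gd ω G T p0 ε W) (t : Tyy ω (AA G T p0) ε W) : Good ω G T p0 ε W :=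
  ⟨h.bl, h.irr, h.inb, h.smp, h.ne, h.ns, h.full, t⟩

namespace Gd

variable (D : MStr ω G T p0)
include D

lemma on_U (hg : Gd ω G T p0 ε W) (h : TyU ω ε W) : (Lb G T p0 ε).map (Rw W) = slw K W := by
  have R := D.ssA.rs hg.bl hg.irr hg.inb
  obtain ⟨k, hk, htr, -⟩ := R.mult
  have hk0 : (k : K) ≠ 0 := by rw [Nat.cast_ne_zero]; omega
  apply le_antisymm
  · rintro _ ⟨x, hx, rfl⟩
    change LinearMap.trace K W (Rw W x) = 0
    have h1 := htr x (D.lb_le hg.bl hx)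
    rw [D.lb_tr hg.bl hx] at h1
    exact (mul_eq_zero.mp h1.symm).resolve_left hk0
  · intro z hz
    obtain ⟨x, hx, rfl⟩ := R.surj z
    refine ⟨x, hg.full x hx.1 hx.2 ?_ (fun hsd => absurd hsd h.1), rfl⟩
    have hz' : LinearMap.trace K W (Rw W x) = 0 := hz
    rw [htr x hx, hz', mul_zero]

lemma lb_sk (hg : Gd ω G T p0 ε W) (hsd : SD ω ε) {x : Module.End K V}
    (hx : x ∈ Lb G T p0 ε) : IsSk ω x := by
  obtain ⟨y, hy, rfl⟩ := hx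
  have h1 : IsAdj ω (y * ε) (ε * -y) := adj_mul (adj_of_sk (D.ml_sk hy)) hsd
  have h2 : ε * -y = -(y * ε) := by rw [mul_neg, hg.bl.cen y (D.ml_mem hy)]
  rw [h2] at h1
  exact sk_of_adj h1

lemma on_K (hg : Gd ω G T p0 ε W) (hsd : SD ω ε) {b : LinearMap.BilinForm K W}
    (hb : Fm ω (AA G T p0) ε W b) : (Lb G T p0 ε).map (Rw W) = skw b := by
  have R := D.ssA.rs hg.bl hg.irr hg.inb
  apply le_antisymm
  · rintro _ ⟨x, hx, rfl⟩
    exact (hb.sk x (D.lb_le hg.bl hx).1 (D.lb_le hg.bl hx).2).mp (hg.lb_sk D hsd hx)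
  · intro z hz
    obtain ⟨x, hx, rfl⟩ := R.surj z
    have h1 : IsSk ω x := (hb.sk x hx.1 hx.2).mpr hz
    exact ⟨x, hg.full x hx.1 hx.2 (trace_eq_zero_of_sk D.nd h1) (fun _ => h1), rfl⟩

lemma lk (h1 : Gd ω G T p0 ε₁ W₁) (h2 : Gd ω G T p0 ε₂ W₂) (hl : Good.Lnk G T p0 ε₁ ε₂) :
    Lk ((ML G T p0).map (RR2 ε₁ ε₂ W₁ W₂)) :=
  D.lk h1.bl h2.bl h1.smp h2.smp h1.ne h2.ne hl h1.irr h1.inb h2.irr h2.inb

lemma lnk_symm (h1 : Gd ω G T p0 ε₁ W₁) (h2 : Gd ω G T p0 ε₂ W₂)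
    (hl : Good.Lnk G T p0 ε₁ ε₂) : Good.Lnk G T p0 ε₂ ε₁ := by
  intro x hx hx1
  have hL := lk D h1 h2 hl
  have R := D.ssA.rs h2.bl h2.irr h2.inb
  apply R.inj _ (D.lb_le h2.bl ⟨x, hx, rfl⟩)
  refine hL.k1 (RR2 ε₁ ε₂ W₁ W₂ x) ⟨x, hx, rfl⟩ ?_
  change Rw W₁ (x * ε₁) = 0
  rw [hx1, _root_.map_zero]

lemma no_f (h1 : Gd ω G T p0 ε₁ W₁) (h2 : Gd ω G T p0 ε₂ W₂) (hne : ε₁ ≠ ε₂)
    (hf : ∃ f : W₁ →ₗ[K] W₂, f ≠ 0 ∧ ∀ x ∈ (ML G T p0).map (RR2 ε₁ ε₂ W₁ W₂), ∀ v,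
      f (x.1 v) = x.2 (f v)) : False := by
  obtain ⟨f, hf0, hf⟩ := hf
  exact hf0 (D.no_iso h1.bl h2.bl hne h1.ns h1.irr h1.inb h2.irr h2.inb f
    (fun x hx v => hf _ ⟨x, hx, rfl⟩ v))

lemma rw_mul (hg : Gd ω G T p0 ε W) {x : Module.End K V} (hx : x ∈ AA G T p0) :
    Rw W (x * ε) = Rw W x := by
  have hst := hg.irr.st
  have h1 : ∀ w ∈ W, (x * ε) w ∈ W := by
    intro w hw
    rw [Module.End.mul_apply, hg.inb w hw]
    exact hst x hx w hw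
  ext w
  rw [Rw_coe h1, Rw_coe (hst x hx), Module.End.mul_apply, hg.inb w w.2]

lemma rw_hom (hg : Gd ω G T p0 ε W) {x y : Module.End K V} (hx : x ∈ AA G T p0)
    (hy : y ∈ AA G T p0) : Rw W (x * y) = Rw W x * Rw W y := by
  have hst := hg.irr.st
  ext w
  rw [Rw_coe (hst _ (mul_mem hx hy)), Module.End.mul_apply, Module.End.mul_apply,
    Rw_coe (hst x hx), Rw_coe (hst y hy)]

end Gd

/-- An element normalising the Lie algebra, over two linked blocks. -/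
theorem lift_two (D : MStr ω G T p0) (hε₁ : Bl (AA G T p0) ε₁) (hε₂ : Bl (AA G T p0) ε₂)
    (hl : Good.Lnk G T p0 ε₂ ε₁) {x : Module.End K V} (hx : x ∈ AA G T p0)
    (hn : ∀ z ∈ ML G T p0, x * z - z * x ∈ ML G T p0) {c₁ c₂ : K}
    (h1 : (x - c₁ • 1) * ε₁ ∈ Lb G T p0 ε₁) (h2 : (x - c₂ • 1) * ε₂ ∈ Lb G T p0 ε₂) :
    ∃ y ∈ ML G T p0, y * ε₁ = (x - c₁ • 1) * ε₁ ∧ y * ε₂ = (x - c₂ • 1) * ε₂ := by
  obtain ⟨y, hy, hy1⟩ := h1
  change y * ε₁ = _ at hy1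
  refine ⟨y, hy, hy1, ?_⟩
  rw [← sub_eq_zero]
  apply (D.red_lb hε₂).cen _ (Submodule.sub_mem _ ⟨y, hy, rfl⟩ h2)
  rintro _ ⟨z, hz, rfl⟩
  change (y * ε₂ - (x - c₂ • 1) * ε₂) * (z * ε₂) = (z * ε₂) * (y * ε₂ - (x - c₂ • 1) * ε₂)
  have hyA := D.ml_mem hy
  have hzA := D.ml_mem hz
  -- commutators
  have key : ∀ (ε : Module.End K V), Bl (AA G T p0) ε → ∀ (a : Module.End K V), a ∈ AA G T p0 →
      ∀ b ∈ AA G T p0, (a * ε) * (b * ε) = (a * b) * ε := by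
    intro ε hε a ha b hb
    calc (a * ε) * (b * ε) = a * (ε * b) * ε := by simp only [mul_assoc]
      _ = a * b * (ε * ε) := by rw [hε.cen b hb]; simp only [mul_assoc]
      _ = _ := by rw [hε.idem]
  have hxc : ∀ c : K, x - c • 1 ∈ AA G T p0 := fun c =>
    sub_mem hx (Subalgebra.smul_mem _ (one_mem _) _)
  set d := (y * z - z * y) - (x * z - z * x) with hd
  have hdm : d ∈ ML G T p0 := Submodule.sub_mem _ (D.ml_br hy hz) (hn z hz)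
  have hd1 : d * ε₁ = 0 := by
    have e1 : (y * z) * ε₁ = ((x - c₁ • 1) * z) * ε₁ := by
      rw [← key ε₁ hε₁ y hyA z hzA, hy1, key ε₁ hε₁ _ (hxc c₁) z hzA]
    have e2 : (z * y) * ε₁ = (z * (x - c₁ • 1)) * ε₁ := by
      rw [← key ε₁ hε₁ z hzA y hyA, hy1, key ε₁ hε₁ z hzA _ (hxc c₁)]
    rw [hd, sub_mul, sub_mul, e1, e2, ← sub_mul, ← sub_mul]
    have e3 : (x - c₁ • 1) * z - z * (x - c₁ • 1) - (x * z - z * x) = 0 := by
      rw [sub_mul, mul_sub, smul_mul_assoc, mul_smul_comm, one_mul, mul_one]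
      abel
    rw [e3, zero_mul]
  have hd2 : d * ε₂ = 0 := hl d hdm hd1
  have e1 : (y * ε₂ - (x - c₂ • 1) * ε₂) * (z * ε₂) = (y * z - (x - c₂ • 1) * z) * ε₂ := by
    rw [sub_mul, key ε₂ hε₂ y hyA z hzA, key ε₂ hε₂ _ (hxc c₂) z hzA, ← sub_mul]
  have e2 : (z * ε₂) * (y * ε₂ - (x - c₂ • 1) * ε₂) = (z * y - z * (x - c₂ • 1)) * ε₂ := by
    rw [mul_sub, key ε₂ hε₂ z hzA y hyA, key ε₂ hε₂ z hzA _ (hxc c₂), ← sub_mul]
  rw [e1, e2, ← sub_eq_zero, ← sub_mul]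
  have e3 : y * z - (x - c₂ • 1) * z - (z * y - z * (x - c₂ • 1)) = d := by
    rw [hd, sub_mul, mul_sub, smul_mul_assoc, mul_smul_comm, one_mul, mul_one]
    abel
  rw [e3, hd2]

/-- The nilpotent operator of a place normalises the Lie algebra. -/
theorem plc_norm (D : MStr ω G T p0) {N h : Module.End K V} (hp : Plc G T p0 N h)
    (hNN : N * N = 0) : ∀ z ∈ ML G T p0, N * z - z * N ∈ ML G T p0 := by
  intro z hz
  obtain ⟨u', hu', huu, huu'⟩ := D.inv _ hp.mem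
  have huN' : u' = 1 - N := by
    have e2 : (1 + N) * (1 - N) = 1 := by
      have e3 : (1 + N) * (1 - N) = 1 - N * N := by
        simp only [mul_sub, add_mul, mul_one, one_mul]; abel
      rw [e3, hNN, sub_zero]
    calc u' = u' * ((1 + N) * (1 - N)) := by rw [e2, mul_one]
      _ = _ := by rw [← mul_assoc, huu', one_mul]
  have h1 := D.ml_conj hp.mem hu' huu huu' hz
  have h2 := D.ml_conj hu' hp.mem huu' huu hz
  rw [huN'] at h1 h2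
  have h3 := (ML G T p0).smul_mem (2 : K)⁻¹ ((ML G T p0).sub_mem h1 h2)
  have e : (1 + N) * z * (1 - N) - (1 - N) * z * (1 + N) = (2 : K) • (N * z - z * N) := by
    have : (1 + N) * z * (1 - N) - (1 - N) * z * (1 + N) =
      (N * z - z * N) + (N * z - z * N) := by
      simp only [mul_sub, sub_mul, mul_add, add_mul, mul_one, one_mul, mul_assoc]; abel
    rw [this, two_smul]
  rw [e, smul_smul, inv_mul_cancel₀ two_ne_zero, one_smul] at h3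
  exact h3

/-- The data of a place over two linked blocks. -/
theorem plc_two (D : MStr ω G T p0) (g1 : Gd ω G T p0 ε₁ W₁) (g2 : Gd ω G T p0 ε₂ W₂)
    (hl : Good.Lnk G T p0 ε₁ ε₂) {N h : Module.End K V} (hp : Plc G T p0 N h) :
    (Rw W₁ N, Rw W₂ N) ∈ (ML G T p0).map (RR2 ε₁ ε₂ W₁ W₂) ∧ ∃ c₁ c₂ : ℚ,
      (Rw W₁ h - (c₁ : K) • 1, Rw W₂ h - (c₂ : K) • 1) ∈
        (ML G T p0).map (RR2 ε₁ ε₂ W₁ W₂) := by
  obtain ⟨hNN, hNA, hN1, c₁, hc₁⟩ := plc_lb D hp g1.bl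
  obtain ⟨-, -, hN2, c₂, hc₂⟩ := plc_lb D hp g2.bl
  have hl' := g1.lnk_symm D g2 hl
  constructor
  · obtain ⟨y, hy, e1, e2⟩ := lift_two D g1.bl g2.bl hl' hNA (plc_norm D hp hNN) (c₁ := 0)
      (c₂ := 0) (by rw [zero_smul, sub_zero]; exact hN1) (by rw [zero_smul, sub_zero]; exact hN2)
    rw [zero_smul, sub_zero] at e1 e2
    refine ⟨y, hy, ?_⟩
    change (Rw W₁ (y * ε₁), Rw W₂ (y * ε₂)) = _
    rw [e1, e2, g1.rw_mul D hNA, g2.rw_mul D hNA]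
  · obtain ⟨y, hy, e1, e2⟩ := lift_two D g1.bl g2.bl hl' hp.hA hp.norm hc₁ hc₂
    refine ⟨c₁, c₂, y, hy, ?_⟩
    change (Rw W₁ (y * ε₁), Rw W₂ (y * ε₂)) = _
    have hm : ∀ c : K, h - c • 1 ∈ AA G T p0 := fun c =>
      sub_mem hp.hA (Subalgebra.smul_mem _ (one_mem _) _)
    rw [e1, e2, g1.rw_mul D (hm _), g2.rw_mul D (hm _), map_sub, map_sub, map_smul, map_smul,
      Good.rw_one, Good.rw_one]

/-- The number of eigenvalues at a linked pair of dimensions four and six. -/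
theorem nev_four (D : MStr ω G T p0) (g1 : Gd ω G T p0 ε₁ W₁) (g2 : Gd ω G T p0 ε₂ W₂)
    (hl : Good.Lnk G T p0 ε₁ ε₂) (t1 : TyU ω ε₁ W₁) (t2 : TyO ω (AA G T p0) ε₂ W₂)
    (hd1 : finrank K W₁ = 4) (hd2 : finrank K W₂ = 6) {N h : Module.End K V}
    (hp : Plc G T p0 N h) (hr : MTP.rk (Rw W₁ N) = 1) : nev (Rw W₁ N) (Rw W₁ h) = 1 := by
  obtain ⟨m1, c₁, c₂, m2⟩ := plc_two D g1 g2 hl hp
  obtain ⟨a1, ⟨σ1, a2⟩, ⟨τ1, a3⟩, a4⟩ := plc_rw D hp g1.irr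
  obtain ⟨-, ⟨σ2, b2⟩, -, -⟩ := plc_rw D hp g2.irr
  obtain ⟨hsd, he, hd, b, hb, hbs⟩ := t2
  have hle : nev (Rw W₁ N) (Rw W₁ h - (c₁ : K) • 1) ≤ 1 := by
    have e1 : (Rw W₁ h - (c₁ : K) • 1) * Rw W₁ N = (σ1 - c₁) • Rw W₁ N := by
      rw [sub_mul, a2, smul_mul_assoc, one_mul]; exact (sub_smul _ _ _).symm
    have e2 : Rw W₁ N * (Rw W₁ h - (c₁ : K) • 1) = (τ1 - c₁) • Rw W₁ N := by
      rw [mul_sub, a3, mul_smul_comm, mul_one]; exact (sub_smul _ _ _).symm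
    have e3 : (Rw W₂ h - (c₂ : K) • 1) * Rw W₂ N = (σ2 - c₂) • Rw W₂ N := by
      rw [sub_mul, b2, smul_mul_assoc, one_mul]; exact (sub_smul _ _ _).symm
    exact pair_four (N := (Rw W₁ N, Rw W₂ N))
      (h := (Rw W₁ h - (c₁ : K) • 1, Rw W₂ h - (c₂ : K) • 1))
      (g1.lk D g2 hl) hb.nd hbs (Good.on1 (g1.on_U D t1))
      (Good.on2 (g2.on_K D hsd hb)) hd1 hd2 m1 m2 a1 hr e1 e2 e3 (diag_sub a4 c₁)
  rw [nev_sub] at hle
  have h1 := (nev_facts a1 a4 a2 a3).1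
  rw [hr, hd1] at h1
  have h2 : nev (Rw W₁ N) (Rw W₁ h) ≠ 0 := fun h0 => by
    have := h1.mp h0
    omega
  omega

end FR
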