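import Pool.Agent.Helper2.FR.PR
import Pool.Agent.Helper2.AV.PF

/-!
Semisimple Mumford-Tate pairs with Frobenius elements: good blocks.
-/

set_option linter.unusedSimpArgs false
set_option linter.unusedSectionVars false
set_option linter.unusedVariables false

open Module

namespace FR

open MTP UN AV

lemma choose_mono {n : ℕ} : ∀ j, 2 * j ≤ n → ∀ i ≤ j, n.choose i ≤ n.choose j := by
  intro j
  induction j with
  | zero => intro _ i hi; rw [Nat.le_zero.mp hi]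
  | succ j ih =>
    intro hj i hi
    rcases Nat.lt_or_ge i (j + 1) with h | h
    · exact (ih (by omega) i (by omega)).trans
        (Nat.choose_le_succ_of_lt_half_left (by omega))
    · rw [show i = j + 1 by omega]

lemma ten_le_choose {n j : ℕ} (hn : 5 ≤ n) (hj : 2 ≤ j) (hjn : 2 * j ≤ n) :
    10 ≤ n.choose j := by
  have h1 := choose_mono (n := n) j hjn 2 hj
  have h2 := Nat.choose_le_choose 2 hn
  have h3 : Nat.choose 5 2 = 10 := by decide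
  omega

lemma choose_lt {n j : ℕ} (hj : 2 ≤ j) (hjn : 2 * j ≤ n) :
    2 * (n - 2).choose (j - 1) < n.choose j := by
  obtain ⟨m, rfl⟩ : ∃ m, n = m + 2 := ⟨n - 2, by omega⟩
  obtain ⟨i, rfl⟩ : ∃ i, j = i + 1 := ⟨j - 1, by omega⟩
  have e1 : (m + 2).choose (i + 1) = m.choose (i - 1) + 2 * m.choose i + m.choose (i + 1) := by
    obtain ⟨l, rfl⟩ : ∃ l, i = l + 1 := ⟨i - 1, by omega⟩
    rw [Nat.choose_succ_succ', Nat.choose_succ_succ', Nat.choose_succ_succ']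
    have e : l + 1 - 1 = l := by omega
    rw [e]
    ring
  have e2 : m + 2 - 2 = m := by omega
  have e3 : i + 1 - 1 = i := by omega
  have h4 : 0 < m.choose (i - 1) := Nat.choose_pos (by omega)
  rw [e1, e2, e3]
  omega

/-- The exceptional quadruples from the exceptional triples. -/
lemma excF_of {D s r k : ℕ} (h : Exc D s r) (hk : k ≤ 2) (hk0 : k = 0 ↔ 2 * r = D) :
    ExcF D s r k := by
  rcases h with ⟨n, j, h1, h2, h3, h4, h5, h6⟩ | ⟨n, h1, h2, h3, h4⟩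
  · left
    refine ⟨n, j, h1, h2, h3, h4, h5, h6, ?_⟩
    have := choose_lt h2 h3
    rw [h4, h6] at hk0
    omega
  · right
    refine ⟨n, h1, h2, h3, ?_⟩
    obtain ⟨m, rfl⟩ : ∃ m, n = m + 3 := ⟨n - 3, by omega⟩
    have e1 : m + 3 - 1 = m + 2 := by omega
    have e2 : m + 3 - 2 = m + 1 := by omega
    have e3 : m + 3 - 3 = m := by omega
    rw [e1] at h2
    rw [e2, e3] at h4 ⊢
    have e4 : 2 ^ (m + 1) = 2 * 2 ^ m := by rw [pow_succ, mul_comm]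
    have e5 : 2 ^ (m + 2) = 4 * 2 ^ m := by rw [pow_add]; ring
    have hpos : 0 < 2 ^ m := by positivity
    rw [h2, e5] at hk0
    rcases h4 with h4 | h4
    · left
      refine ⟨h4, ?_⟩
      rw [h4] at hk0
      omega
    · right
      refine ⟨h4, ?_⟩
      rw [h4, e4] at hk0
      omega

/-- The dimension of an exceptional triple. -/
lemma exc_dim {D s r : ℕ} (h : Exc D s r) : (D = 8 ∧ (r = 2 ∨ r = 4)) ∨ 10 ≤ D := by
  rcases h with ⟨n, j, h1, h2, h3, h4, h5, h6⟩ | ⟨n, h1, h2, h3, h4⟩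
  · right
    rw [h4]
    exact ten_le_choose h1 h2 h3
  · obtain ⟨m, rfl⟩ : ∃ m, n = m + 4 := ⟨n - 4, by omega⟩
    rcases Nat.eq_zero_or_pos m with h | h
    · left
      subst h
      refine ⟨by rw [h2]; norm_num, ?_⟩
      rcases h4 with h4 | h4 <;> rw [h4] <;> norm_num
    · right
      obtain ⟨l, rfl⟩ : ∃ l, m = l + 1 := ⟨m - 1, by omega⟩
      have e1 : l + 1 + 4 - 1 = l + 4 := by omega
      rw [h2, e1, pow_add]
      have : 0 < 2 ^ l := by positivity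
      omega

variable {K : Type*} [Field K] [IsAlgClosed K] [CharZero K] {V : Type*} [AddCommGroup V]
  [Module K V] [FiniteDimensional K V]
  {ω : LinearMap.BilinForm K V} {G : Set (Module.End K V)}
  {T : Set (Module.End K V ≃+* Module.End K V)} {p0 ε ε₁ ε₂ : Module.End K V}
  {W W₁ W₂ : Submodule K V}

/-- The type of a block. -/
def TyF (ω : LinearMap.BilinForm K V) (G : Set (Module.End K V))
    (T : Set (Module.End K V ≃+* Module.End K V)) (p0 ε : Module.End K V) (W : Submodule K V) :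
    Prop :=
  Tyy ω (AA G T p0) ε W ∨ (TyE ω (AA G T p0) ε W ∧ ∃ N h, Plc G T p0 N h ∧
    MTP.rk (Rw W N) = 2 ∧ 3 ≤ nev (Rw W N) (Rw W h))

lemma rw_hom' (U : MStr ω G T p0) (hW : Irr (AA G T p0 : Set (Module.End K V)) W)
    {x y : Module.End K V} (hx : x ∈ AA G T p0) (hy : y ∈ AA G T p0) :
    Rw W (x * y) = Rw W x * Rw W y := by
  ext w
  rw [Rw_coe (hW.st _ (mul_mem hx hy)), Module.End.mul_apply, Module.End.mul_apply,
    Rw_coe (hW.st x hx), Rw_coe (hW.st y hy)]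

lemma rw_mul' (U : MStr ω G T p0) (hW : Irr (AA G T p0 : Set (Module.End K V)) W)
    (hWε : InB ε W) (hε : ε ∈ AA G T p0) {x : Module.End K V} (hx : x ∈ AA G T p0) :
    Rw W (x * ε) = Rw W x := by
  ext w
  rw [Rw_coe (hW.st _ (mul_mem hx hε)), Rw_coe (hW.st x hx), Module.End.mul_apply,
    hWε w w.2]

/-- Self dual blocks have even dimension. -/
lemma even_of_sd (U : MStr ω G T p0) (hε : Bl (AA G T p0) ε)
    (hW : Irr (AA G T p0 : Set (Module.End K V)) W) (hWε : InB ε W)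
    (hns : ∀ p ∈ SC G T p0, p * ε ≠ 0 ∧ p * ε ≠ ε) (hsd : SD ω ε)
    {b : LinearMap.BilinForm K W} (hb : Fm ω (AA G T p0) ε W b) : Even (finrank K W) := by
  obtain ⟨p, hp⟩ : ∃ p, p ∈ SC G T p0 := ⟨p0, U.p0_mem⟩
  have h1 := U.lb_half hε hsd hns hp
  have hpA := U.sc_mem hp
  have h2 := (hb.sk _ (U.lb_le hε h1).1 (U.lb_le hε h1).2).mp (U.lb_sk hε hsd h1)
  have hm : p - (2 : K)⁻¹ • 1 ∈ AA G T p0 :=
    sub_mem hpA (Subalgebra.smul_mem _ (one_mem _) _)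
  rw [rw_mul' U hW hWε hε.mem hm, map_sub, map_smul, Good.rw_one] at h2
  have h3 := CL.rk_half (P := Rw W p) (by rw [← rw_hom' U hW hpA hpA, U.c1 hp])
    (trace_eq_zero_of_sk hb.nd h2)
  exact ⟨MTP.rk (Rw W p), by omega⟩

/-- The classification of a block, with the number of eigenvalues. -/
theorem classify (U : MStr ω G T p0) (hε : Bl (AA G T p0) ε)
    (hW : Irr (AA G T p0 : Set (Module.End K V)) W) (hWε : InB ε W)
    (hns : ∀ p ∈ SC G T p0, p * ε ≠ 0 ∧ p * ε ≠ ε) (hs : Smp (Lb G T p0 ε))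
    {N h : Module.End K V} (hp : Plc G T p0 N h) (hN0 : N * ε ≠ 0)
    {p : Module.End K V} (hpS : p ∈ SC G T p0) :
    ExcF (finrank K W) (min (MTP.rk (Rw W p)) (finrank K W - MTP.rk (Rw W p)))
      (MTP.rk (Rw W N)) (nev (Rw W N) (Rw W h)) ∨
    (FullB ω G T p0 ε ∧ TyF ω G T p0 ε W) := by
  obtain ⟨hNN, hNA, hN1, -⟩ := plc_lb U hp hε
  obtain ⟨a1, ⟨σ1, a2⟩, ⟨τ1, a3⟩, a4⟩ := plc_rw U hp hW
  have hN2 : (N * ε) * (N * ε) = 0 := by
    calc (N * ε) * (N * ε) = N * (ε * N) * ε := by simp only [mul_assoc]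
      _ = (N * N) * (ε * ε) := by rw [hε.cen _ hNA]; simp only [mul_assoc]
      _ = 0 := by rw [hNN, zero_mul]
  have hf := nev_facts a1 a4 a2 a3
  rcases U.classify hε hW hWε hns hs hN1 hN2 hN0 hpS with hE | ⟨hF, hT⟩
  · rw [rw_mul' U hW hWε hε.mem hNA] at hE
    by_cases hk : nev (Rw W N) (Rw W h) ≤ 2
    · exact Or.inl (excF_of hE hk hf.1)
    right
    have hF : FullB ω G T p0 ε := (full_or U hp hε hW hWε hns hs hN0).resolve_right hk
    refine ⟨hF, ?_⟩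
    have hdim := exc_dim hE
    by_cases hsd : SD ω ε
    · obtain ⟨b, hb, hsa⟩ := U.sd_form hε hsd hW hWε
      rcases hsa with hsy | halt
      · have hev := even_of_sd U hε hW hWε hns hsd hb
        rcases hdim with ⟨h8, hr⟩ | h10
        · right
          refine ⟨⟨hsd, h8, b, hb, hsy⟩, N, h, hp, ?_, by omega⟩
          rcases hr with hr | hr
          · exact hr
          · exfalso
            have := hf.1.mpr (by rw [hr, h8])
            omega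
        · exact Or.inl (Or.inr (Or.inr ⟨hsd, hev, Or.inr h10, b, hb, hsy⟩))
      · exact Or.inl (Or.inr (Or.inl ⟨hsd, b, hb, halt⟩))
    · exact Or.inl (Or.inl ⟨hsd, by omega⟩)
  · exact Or.inr ⟨hF, Or.inl hT⟩

/-- The number of eigenvalues in dimension six. -/
theorem nev_six (U : MStr ω G T p0) (hW : Irr (AA G T p0 : Set (Module.End K V)) W)
    {N h : Module.End K V} (hp : Plc G T p0 N h) (hd : finrank K W = 6)
    (hr : MTP.rk (Rw W N) = 2) :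
    nev (Rw W N) (Rw W h) = 1 ∨ nev (Rw W N) (Rw W h) = 2 := by
  obtain ⟨a1, ⟨σ1, a2⟩, ⟨τ1, a3⟩, a4⟩ := plc_rw U hp hW
  have hf := nev_facts a1 a4 a2 a3
  rw [hr, hd] at hf
  omega

/-- Linked orthogonal blocks of dimension eight. -/
theorem no_eight (U : MStr ω G T p0) (g1 : Gd ω G T p0 ε₁ W₁) (g2 : Gd ω G T p0 ε₂ W₂)
    (hne : ε₁ ≠ ε₂) (t1 : TyE ω (AA G T p0) ε₁ W₁)
    (h1 : ∃ N h, Plc G T p0 N h ∧ MTP.rk (Rw W₁ N) = 2 ∧ 3 ≤ nev (Rw W₁ N) (Rw W₁ h))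
    (t2 : TyE ω (AA G T p0) ε₂ W₂) (hl : Good.Lnk G T p0 ε₁ ε₂) : False := by
  obtain ⟨N, h, hp, hr, hk⟩ := h1
  obtain ⟨m1, c₁, c₂, m2⟩ := plc_two U g1 g2 hl hp
  obtain ⟨a1, ⟨σ1, a2⟩, ⟨τ1, a3⟩, a4⟩ := plc_rw U hp g1.irr
  obtain ⟨-, ⟨σ2, b2⟩, -, -⟩ := plc_rw U hp g2.irr
  obtain ⟨hsd1, hd1, b₁, hb1, hs1⟩ := t1
  obtain ⟨hsd2, hd2, b₂, hb2, hs2⟩ := t2
  have e1 : (Rw W₁ h - (c₁ : K) • 1) * Rw W₁ N = (σ1 - c₁) • Rw W₁ N := by
    rw [sub_mul, a2, smul_mul_assoc, one_mul]; exact (sub_smul _ _ _).symm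
  have e3 : (Rw W₂ h - (c₂ : K) • 1) * Rw W₂ N = (σ2 - c₂) • Rw W₂ N := by
    rw [sub_mul, b2, smul_mul_assoc, one_mul]; exact (sub_smul _ _ _).symm
  rcases pair_eight (N := (Rw W₁ N, Rw W₂ N))
      (h := (Rw W₁ h - (c₁ : K) • 1, Rw W₂ h - (c₂ : K) • 1))
      (g1.lk U g2 hl) hb1.nd hs1 hb2.nd hs2 (Good.on1 (g1.on_K U hsd1 hb1))
      (Good.on2 (g2.on_K U hsd2 hb2)) hd1 m1 m2 a1 hr e1 e3 (diag_sub a4 c₁) with hf | hle
  · exact g1.no_f U g2 hne hf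
  · change nev (Rw W₁ N) (Rw W₁ h - (c₁ : K) • 1) ≤ 2 at hle
    rw [nev_sub] at hle
    omega

/-- Linked orthogonal blocks have the same dimension. -/
theorem dim_eq (U : MStr ω G T p0) (g1 : Gd ω G T p0 ε₁ W₁) (g2 : Gd ω G T p0 ε₂ W₂)
    (sd1 : SD ω ε₁) (sd2 : SD ω ε₂) {b₁ : LinearMap.BilinForm K W₁}
    {b₂ : LinearMap.BilinForm K W₂} (f1 : Fm ω (AA G T p0) ε₁ W₁ b₁)
    (f2 : Fm ω (AA G T p0) ε₂ W₂ b₂) (a1 : ∀ v w, b₁ v w = b₁ w v)
    (a2 : ∀ v w, b₂ v w = b₂ w v) (hl : Good.Lnk G T p0 ε₁ ε₂) :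
    finrank K W₁ = finrank K W₂ := by
  have d1 := dim_so f1.nd a1
  have d2 := dim_so f2.nd a2
  rw [LK.finrank_eq (g1.lk U g2 hl) (Good.on1 (g1.on_K U sd1 f1))
    (Good.on2 (g2.on_K U sd2 f2))] at d1
  have h0 : 0 < finrank K W₁ := by
    have := g1.irr.nontrivial
    exact Module.finrank_pos
  have h0' : 0 < finrank K W₂ := by
    have := g2.irr.nontrivial
    exact Module.finrank_pos
  have h4 : ((finrank K W₁ : ℤ) - finrank K W₂) * ((finrank K W₁ : ℤ) + finrank K W₂ - 1) = 0 := by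
    have e1 : (2 * finrank K (skw b₂) + finrank K W₁ : ℤ) = finrank K W₁ * finrank K W₁ := by
      exact_mod_cast d1
    have e2 : (2 * finrank K (skw b₂) + finrank K W₂ : ℤ) = finrank K W₂ * finrank K W₂ := by
      exact_mod_cast d2
    linear_combination e2 - e1
  rcases mul_eq_zero.mp h4 with h | h
  · omega
  · omega

/-- Different blocks which are not adjoint are not linked, except for the special case. -/
theorem not_lnk (D : MStr ω G T p0) (h1 : Gd ω G T p0 ε₁ W₁) (h2 : Gd ω G T p0 ε₂ W₂)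
    (hne : ε₁ ≠ ε₂) (hna : ¬ IsAdj ω ε₁ ε₂) (t1 : TyF ω G T p0 ε₁ W₁)
    (t2 : TyF ω G T p0 ε₂ W₂)
    (hs1 : TyU ω ε₁ W₁ → TyO ω (AA G T p0) ε₂ W₂ → Good.Lnk G T p0 ε₁ ε₂ →
      ¬ Good.Spc G T p0 W₁ W₂)
    (hs2 : TyU ω ε₂ W₂ → TyO ω (AA G T p0) ε₁ W₁ → Good.Lnk G T p0 ε₂ ε₁ →
      ¬ Good.Spc G T p0 W₂ W₁) :
    ¬ Good.Lnk G T p0 ε₁ ε₂ := by
  intro hl
  have hl' := h1.lnk_symm D h2 hl
  rcases t1 with t1 | ⟨⟨sd1, hd1, b₁, f1, a1⟩, p1⟩
  · rcases t2 with t2 | ⟨⟨sd2, hd2, b₂, f2, a2⟩, p2⟩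
    · by_cases hUO : TyU ω ε₁ W₁ ∧ TyO ω (AA G T p0) ε₂ W₂
      · exact hs1 hUO.1 hUO.2 hl ((h1.good t1).spc D (h2.good t2) hl hUO.1 hUO.2)
      by_cases hOU : TyU ω ε₂ W₂ ∧ TyO ω (AA G T p0) ε₁ W₁
      · exact hs2 hOU.1 hOU.2 hl' ((h2.good t2).spc D (h1.good t1) hl' hOU.1 hOU.2)
      rcases t1 with t1 | ⟨sd1, b₁, f1, a1⟩ | t1 <;> rcases t2 with t2 | ⟨sd2, b₂, f2, a2⟩ | t2
      · rcases pair_UU (h1.lk D h2 hl) (Good.on1 (h1.on_U D t1)) (Good.on2 (h2.on_U D t2))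
          with h | h
        · exact h1.no_f D h2 hne h
        · exact (h1.good (Or.inl t1)).no_c D (h2.good (Or.inl t2)) hna h
      · exact pair_US (h1.lk D h2 hl) t1.2 f2.nd a2 (Good.on1 (h1.on_U D t1))
          (Good.on2 (h2.on_K D sd2 f2))
      · exact hUO ⟨t1, t2⟩
      · exact pair_US (h2.lk D h1 hl') t2.2 f1.nd a1 (Good.on1 (h2.on_U D t2))
          (Good.on2 (h1.on_K D sd1 f1))
      · exact h1.no_f D h2 hne (pair_SS (h1.lk D h2 hl) f1.nd a1 f2.nd a2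
          (Good.on1 (h1.on_K D sd1 f1)) (Good.on2 (h2.on_K D sd2 f2)))
      · obtain ⟨sd2, he, hd, b₂, f2, a2⟩ := t2
        exact pair_SO (h1.lk D h2 hl) f1.nd a1 f2.nd a2 (Good.on1 (h1.on_K D sd1 f1))
          (Good.on2 (h2.on_K D sd2 f2)) he (by omega)
      · exact hOU ⟨t2, t1⟩
      · obtain ⟨sd1, he, hd, b₁, f1, a1⟩ := t1
        exact pair_SO (h2.lk D h1 hl') f2.nd a2 f1.nd a1 (Good.on1 (h2.on_K D sd2 f2))
          (Good.on2 (h1.on_K D sd1 f1)) he (by omega)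
      · obtain ⟨sd1, he1, hd1, b₁, f1, a1⟩ := t1
        obtain ⟨sd2, he2, hd2, b₂, f2, a2⟩ := t2
        exact h1.no_f D h2 hne (pair_OO (h1.lk D h2 hl) f1.nd a1 f2.nd a2
          (Good.on1 (h1.on_K D sd1 f1)) (Good.on2 (h2.on_K D sd2 f2)) he1 hd1 he2 hd2)
    · rcases t1 with t1 | ⟨sd1, b₁, f1, a1⟩ | ⟨sd1, he1, hd1, b₁, f1, a1⟩
      · obtain ⟨r1, r2, r3⟩ := pair_UO (h1.lk D h2 hl) f2.nd a2 (Good.on1 (h1.on_U D t1))
          (Good.on2 (h2.on_K D sd2 f2)) (by rw [hd2]; decide) (by omega)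
        omega
      · exact pair_SO (h1.lk D h2 hl) f1.nd a1 f2.nd a2 (Good.on1 (h1.on_K D sd1 f1))
          (Good.on2 (h2.on_K D sd2 f2)) (by rw [hd2]; decide) (by omega)
      · have := dim_eq D h1 h2 sd1 sd2 f1 f2 a1 a2 hl
        omega
  · rcases t2 with t2 | ⟨t2, p2⟩
    · rcases t2 with t2 | ⟨sd2, b₂, f2, a2⟩ | ⟨sd2, he2, hd2, b₂, f2, a2⟩
      · obtain ⟨r1, r2, r3⟩ := pair_UO (h2.lk D h1 hl') f1.nd a1 (Good.on1 (h2.on_U D t2))
          (Good.on2 (h1.on_K D sd1 f1)) (by rw [hd1]; decide) (by omega)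
        omega
      · exact pair_SO (h2.lk D h1 hl') f2.nd a2 f1.nd a1 (Good.on1 (h2.on_K D sd2 f2))
          (Good.on2 (h1.on_K D sd1 f1)) (by rw [hd1]; decide) (by omega)
      · have := dim_eq D h1 h2 sd1 sd2 f1 f2 a1 a2 hl
        omega
    · exact no_eight D h1 h2 hne ⟨sd1, hd1, b₁, f1, a1⟩ p1 t2 hl

end FR
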